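import Pool.Agent.N184.HK.W6
import Pool.Agent.Q8.HK.Weyl

/-!
# Nilpotent elements of the center of the commutant of `so(H²)`
-/

set_option autoImplicit false
set_option linter.style.haveILetI false

namespace Pool.Agent.K4H28.MT

open Module LieAlgebra
open Pool.Agent.N184.HK

section

attribute [local instance 100] LieRing.ofAssociativeRing

variable {K : Type} [Field K] {V : Type} [AddCommGroup V] [Module K V]

theorem skew_br {q : LinearMap.BilinForm K V} {A B : Module.End K V} (hA : Skew q A)
    (hB : Skew q B) : Skew q (A * B - B * A) := by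
  intro x y
  simp only [LinearMap.sub_apply, Module.End.mul_apply, map_sub]
  linear_combination hA (B x) y - hB (A x) y + hA x (B y) - hB x (A y)

/-- the Lie algebra `so(V, q)` -/
def soq (q : LinearMap.BilinForm K V) : LieSubalgebra K (Module.End K V) where
  carrier := {a | Skew q a}
  add_mem' {a b} ha hb := by
    intro x y
    have h1 := ha x y
    have h2 := hb x y
    simp only [LinearMap.add_apply, map_add]
    linear_combination h1 + h2
  zero_mem' := by
    intro x y
    simp
  smul_mem' c a ha := by
    intro x y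
    have h1 := ha x y
    simp only [LinearMap.smul_apply, map_smul, smul_eq_mul]
    linear_combination c * h1
  lie_mem' := fun {x y} hx hy => by
    rw [Ring.lie_def]
    exact skew_br hx hy

theorem tr_E [FiniteDimensional K V] {q : LinearMap.BilinForm K V} (hq : ∀ x y, q x y = q y x)
    {a : Module.End K V} (ha : Skew q a) (u v : V) :
    LinearMap.trace K _ (a * P_PERF.E q u v) = 2 * q u (a v) := by
  have h : a * P_PERF.E q u v = (q u).smulRight (a v) - (q v).smulRight (a u) := by
    ext z
    simp [P_PERF.E_apply]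
  rw [h, map_sub, LinearMap.trace_smulRight, LinearMap.trace_smulRight]
  have h1 := ha v u
  have h2 := hq u (a v)
  linear_combination -h1 - h2

/-- the radical of `so(V, q)` is trivial -/
theorem soq_rad [CharZero K] [IsAlgClosed K] [FiniteDimensional K V]
    {q : LinearMap.BilinForm K V} (hs : q.IsSymm) (hn : q.Nondegenerate)
    (h3 : 3 ≤ finrank K V) : HasTrivialRadical K (soq q) := by
  haveI : FiniteDimensional K (soq q) :=
    inferInstanceAs (FiniteDimensional K (soq q).toSubmodule)
  have hq : ∀ x y, q x y = q y x := fun x y => hs.eq x y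
  have hnd : ∀ y, (∀ x, q x y = 0) → y = 0 := fun y hy => by
    refine hn.1 y fun x => ?_
    rw [hq]; exact hy x
  constructor
  rw [LieSubmodule.eq_bot_iff]
  intro z hz
  have hcomm : ∀ X : Module.End K V, Skew q X →
      (z : Module.End K V) * X = X * z := by
    intro X hX
    rw [← sub_eq_zero]
    have hs : Skew q ((z : Module.End K V) * X - X * z) := skew_br z.2 hX
    refine LinearMap.ext fun v => ?_
    refine hnd _ fun u => ?_
    have hY : Skew q (P_PERF.E q u v) := P_PERF.E_skew hq u v
    obtain ⟨k, hk⟩ := Pool.Agent.Q8.HK.nil z (⟨X, hX⟩ : soq q) (⟨P_PERF.E q u v, hY⟩ : soq q) hz _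
      V rfl
    have h1 : (((z : Module.End K V) * X - X * z) * P_PERF.E q u v) ^ k = 0 := by
      refine LinearMap.ext fun w => ?_
      have h2 : ∀ (j : ℕ) (w : V),
          ((((z : Module.End K V) * X - X * z) * P_PERF.E q u v) ^ j) w =
          (fun w : V => ⁅⁅z, (⟨X, hX⟩ : soq q)⁆, ⁅(⟨P_PERF.E q u v, hY⟩ : soq q), w⁆⁆)^[j] w := by
        intro j
        induction j with
        | zero => intro w; rfl
        | succ j ih =>
          intro w
          rw [pow_succ, Module.End.mul_apply, ih, Function.iterate_succ_apply]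
          rfl
      rw [h2, hk]
      rfl
    have h3 := (LinearMap.isNilpotent_trace_of_isNilpotent ⟨k, h1⟩).eq_zero
    rw [tr_E hq hs] at h3
    exact (mul_eq_zero.1 h3).resolve_left two_ne_zero
  obtain ⟨z, hzs⟩ := z
  have hzs' : Skew q z := hzs
  have hz' : z = 0 := by
    refine LinearMap.ext fun v => ?_
    refine hnd _ fun u => ?_
    have hE := t_perf K V q hs hn h3 _ (P_PERF.E_skew hq u v)
    have h5 : LinearMap.trace K V (z * P_PERF.E q u v) = 0 := by
      have h6 : Submodule.span K {C : Module.End K V | ∃ B D : Module.End K V, Skew q B ∧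
          Skew q D ∧ C = B * D - D * B} ≤
          LinearMap.ker (LinearMap.trace K V ∘ₗ LinearMap.mulLeft K z) := by
        rw [Submodule.span_le]
        rintro C ⟨B, D, hB, hD, rfl⟩
        change LinearMap.trace K V (z * (B * D - D * B)) = 0
        rw [mul_sub, map_sub, ← mul_assoc, ← mul_assoc, hcomm D hD, sub_eq_zero,
          mul_assoc D, LinearMap.trace_mul_comm K D]
      exact h6 hE
    rw [tr_E hq hzs'] at h5
    exact (mul_eq_zero.1 h5).resolve_left two_ne_zero
  exact Subtype.ext hz'

end

section

attribute [local instance 100] LieRing.ofAssociativeRing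

variable {K : Type} [Field K] [IsAlgClosed K] [CharZero K] {d : ℕ} {c : ℚ} (X : Cohomology K d c)

/-- **Weyl's theorem**: the kernel of an element of the commutant is a direct summand. -/
theorem exists_proj (i : ℕ) {T : Module.End K (X.H i)} (hT : T ∈ cen X i) :
    ∃ f ∈ cen X i, (∀ x, T (f x) = 0) ∧ ∀ x, T x = 0 → f x = x := by
  haveI : FiniteDimensional K (soq X.q) :=
    inferInstanceAs (FiniteDimensional K (soq X.q).toSubmodule)
  haveI := soq_rad X.symm X.nondeg X.dim3
  let f : soq X.q →ₗ⁅K⁆ Module.End K (X.H i) :=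
    { toFun := fun a => X.ρ i a
      map_add' := fun a b => by
        show X.ρ i ((a : Module.End K (X.H 2)) + b) = _
        rw [map_add]
      map_smul' := fun c a => by
        show X.ρ i (c • (a : Module.End K (X.H 2))) = _
        rw [map_smul]; rfl
      map_lie' := fun {a b} => by
        show X.ρ i (⁅(a : Module.End K (X.H 2)), (b : Module.End K (X.H 2))⁆) = _
        rw [Ring.lie_def, X.bracket i _ _ a.2 b.2, Ring.lie_def] }
  letI i1 : LieRingModule (soq X.q) (X.H i) :=
    LieRingModule.compLieHom (X.H i) f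
  letI i2 : LieModule K (soq X.q) (X.H i) :=
    LieModule.compLieHom (X.H i) f
  have hbr : ∀ (a : soq X.q) (m : X.H i), ⁅a, m⁆ = X.ρ i a m := fun a m => rfl
  have hsplit : Cb.a19237_split K := fun L _ _ _ _ V _ _ _ _ _ V₁ h1 h2 =>
    Cb.splitting (C := K) (L := L) (fun _ => Cb.casimir) V V₁ h1 h2
  let N' : LieSubmodule K (soq X.q) (X.H i) :=
    { LinearMap.ker T with
      lie_mem := by
        intro a m hm
        change T (X.ρ i a m) = 0
        have h1 := congrArg (fun f => f m) (hT a a.2).eq
        change X.ρ i a (T m) = T (X.ρ i a m) at h1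
        rw [← h1]
        have h2 : T m = 0 := hm
        rw [h2, map_zero] }
  obtain ⟨C, hC⟩ := Cb.a19237_B hsplit (soq X.q) (X.H i) (by
    intro z hz
    rw [HasTrivialRadical.radical_eq_bot, LieSubmodule.mem_bot] at hz
    exact ⟨0, fun v => by rw [hz, zero_lie, zero_smul]⟩) N'
  have hcompl : IsCompl (LinearMap.ker T) C.toSubmodule := by
    have h1 := hC.inf_eq_bot
    have h2 := hC.sup_eq_top
    constructor
    · rw [disjoint_iff, eq_bot_iff]
      rintro v ⟨hv1, hv2⟩
      have h3 : v ∈ N' ⊓ C := by
        rw [LieSubmodule.mem_inf]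
        exact ⟨hv1, hv2⟩
      rw [h1, LieSubmodule.mem_bot] at h3
      rw [Submodule.mem_bot]
      exact h3
    · rw [codisjoint_iff, eq_top_iff]
      intro v _
      have h3 : v ∈ N' ⊔ C := by
        rw [h2]; trivial
      rw [← LieSubmodule.mem_toSubmodule, LieSubmodule.sup_toSubmodule] at h3
      exact h3
  let p : Module.End K (X.H i) := (LinearMap.ker T).subtype ∘ₗ
    (LinearMap.ker T).projectionOnto _ hcompl
  have hp1 : ∀ x, T (p x) = 0 := fun x => ((LinearMap.ker T).projectionOnto _ hcompl x).2
  have hp2 : ∀ x, T x = 0 → p x = x := fun x hx => by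
    have := Submodule.projectionOnto_apply_left hcompl ⟨x, hx⟩
    exact congrArg Subtype.val this
  have hp3 : ∀ x, x ∈ C → p x = 0 := fun x hx => by
    have := Submodule.projectionOnto_apply_right hcompl ⟨x, hx⟩
    exact congrArg Subtype.val this
  refine ⟨p, fun A hA => ?_, hp1, hp2⟩
  refine LinearMap.ext fun x => ?_
  change X.ρ i A (p x) = p (X.ρ i A x)
  obtain ⟨y, hy, z, hz, rfl⟩ : ∃ y ∈ LinearMap.ker T, ∃ z ∈ C.toSubmodule, y + z = x := by
    have : x ∈ LinearMap.ker T ⊔ C.toSubmodule := by
      rw [hcompl.sup_eq_top]; trivial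
    exact Submodule.mem_sup.1 this
  have h1 : T (X.ρ i A y) = 0 := by
    have h1 := congrArg (fun f => f y) (hT A hA).eq
    change X.ρ i A (T y) = T (X.ρ i A y) at h1
    rw [← h1, LinearMap.mem_ker.1 hy, map_zero]
  have h2 : X.ρ i A z ∈ C := by
    have := C.lie_mem (x := (⟨A, hA⟩ : soq X.q)) ((LieSubmodule.mem_toSubmodule C).1 hz)
    exact this
  rw [map_add, map_add, map_add, map_add, hp2 y hy, hp3 z hz, map_zero, add_zero, hp2 _ h1,
    hp3 _ h2, add_zero]

/-- A nilpotent element of the center of the commutant is zero. -/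
theorem nil_center {i : ℕ} {T : Module.End K (X.H i)} (hT : T ∈ cen X i)
    (hc : ∀ a ∈ cen X i, Commute T a) (hn : IsNilpotent T) : T = 0 := by
  obtain ⟨f, hf, h1, h2⟩ := exists_proj X i hT
  by_contra hne
  have hex : ∃ k, T ^ k = 0 := hn
  classical
  set k := Nat.find hex with hk
  have hk0 : T ^ k = 0 := Nat.find_spec hex
  have hk1 : 2 ≤ k := by
    by_contra hlt
    have : k = 0 ∨ k = 1 := by omega
    rcases this with h | h
    · rw [h, pow_zero] at hk0
      apply hne
      rw [← mul_one T, hk0, mul_zero]
    · rw [h, pow_one] at hk0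
      exact hne hk0
  obtain ⟨m, hm⟩ : ∃ m, k = m + 2 := ⟨k - 2, by omega⟩
  have h3 : T ^ (m + 1) ≠ 0 := Nat.find_min hex (by omega)
  apply h3
  refine LinearMap.ext fun x => ?_
  have h4 : T ((T ^ (m + 1)) x) = 0 := by
    rw [← Module.End.mul_apply, ← pow_succ', show m + 1 + 1 = k by omega, hk0]
    rfl
  have h5 := h2 _ h4
  have h6 : f (T ((T ^ m) x)) = T (f ((T ^ m) x)) := by
    have := congrArg (fun g => g ((T ^ m) x)) (hc f hf).eq
    exact this.symm
  rw [pow_succ', Module.End.mul_apply, h6, h1] at h5
  rw [pow_succ', Module.End.mul_apply, ← h5]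
  rfl

end

end Pool.Agent.K4H28.MT
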