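import Pool.Agent.N184.HK.WDefs

/-!
# The Mumford-Tate conjecture for hyperkähler varieties: definitions
-/

set_option autoImplicit false

namespace Pool.Agent.K4H28.MT

open Module NumberField IsDedekindDomain Filter Topology
open Pool.Agent.W401.Cheb Pool.Agent.N184.HK
open scoped Matrix

/-! ### Lie algebras -/

/-- Families of square matrices of size `n x`, `x : ι`, with coefficients in `F`: the block diagonal
endomorphisms of the direct sum of the spaces `F ^ (n x)`. -/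
abbrev Blk {ι : Type} (n : ι → ℕ) (F : Type) : Type :=
  ∀ x, Matrix (Fin (n x)) (Fin (n x)) F

variable {ι : Type} {n : ι → ℕ}

/-- Apply the function `p` to all entries. -/
def Blk.map {F G : Type} (p : F → G) (Y : Blk n F) : Blk n G :=
  fun x => (Y x).map p

/-- The extension of scalars of a space `𝔞` of rational matrices to the field `F`. -/
def scal (F : Type) [Field F] [Algebra ℚ F] (𝔞 : Submodule ℚ (Blk n ℚ)) : Submodule F (Blk n F) :=
  Submodule.span F (Blk.map (algebraMap ℚ F) '' (𝔞 : Set (Blk n ℚ)))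

/-- `𝔞` is a Lie algebra. -/
def IsLie (𝔞 : Submodule ℚ (Blk n ℚ)) : Prop :=
  ∀ Y ∈ 𝔞, ∀ Z ∈ 𝔞, Y * Z - Z * Y ∈ 𝔞

/-- The Lie algebra of the Mumford-Tate group of a rational Hodge structure (a direct sum of Hodge
structures with given bases): `h` is the operator on the complexification which acts as `p` on the
part of type `(p, q)`, and the Lie algebra is the smallest rational Lie algebra whose
complexification contains `h` (see `lieMT_spec`). -/
def lieMT (h : Blk n ℂ) : Submodule ℚ (Blk n ℚ) :=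
  sInf {𝔞 | IsLie 𝔞 ∧ h ∈ scal ℂ 𝔞}

/-- `Y` is in the Lie algebra of the image of the group `Γ` under the representation `g` (a direct
sum of representations): it is the limit of `(g (s k) - 1) / t k`, for a sequence `s k` in `Γ` with
limit `1` and a sequence `t k` of nonzero `ℓ`-adic numbers with limit `0`. -/
def Tangent {ℓ : ℕ} [Fact ℓ.Prime] {Γ : Type} [One Γ] [TopologicalSpace Γ]
    (g : Γ → Blk n ℚ_[ℓ]) (Y : Blk n ℚ_[ℓ]) : Prop :=
  ∃ s : ℕ → Γ, Tendsto s atTop (𝓝 1) ∧ ∃ t : ℕ → ℚ_[ℓ], (∀ k, t k ≠ 0) ∧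
    Tendsto t atTop (𝓝 0) ∧
    ∀ x, Tendsto (fun k => (t k)⁻¹ • (g (s k) x - 1)) atTop (𝓝 (Y x))

/-- The Lie algebra of the image of `Γ` under `g` is the image under `L` of the Lie algebra of the
image of `Γ` under `g'`. -/
def LieImage {ℓ : ℕ} [Fact ℓ.Prime] {Γ : Type} [One Γ] [TopologicalSpace Γ] {κ : Type} {k : κ → ℕ}
    (g : Γ → Blk n ℚ_[ℓ]) (g' : Γ → Blk k ℚ_[ℓ]) (L : Blk k ℚ_[ℓ] → Blk n ℚ_[ℓ]) : Prop :=
  ∀ Y, Tangent g Y ↔ ∃ Z, Tangent g' Z ∧ Y = L Z

/-- The Lie algebra of the Mumford-Tate group for the operator `h` is the image under `L` of the one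
for the operator `h'`. -/
def LieHodge {κ : Type} {k : κ → ℕ} (h : Blk n ℂ) (h' : Blk k ℂ) (L : Blk k ℚ → Blk n ℚ) : Prop :=
  ∀ Y, Y ∈ lieMT h ↔ ∃ Z ∈ lieMT h', Y = L Z

/-- `g` is continuous, with `g 1 = 1`. -/
def IsCts {ℓ : ℕ} [Fact ℓ.Prime] {Γ : Type} [One Γ] [TopologicalSpace Γ]
    (g : Γ → Blk n ℚ_[ℓ]) : Prop :=
  Continuous g ∧ g 1 = 1

/-- The Mumford-Tate conjecture at `ℓ` for the Galois representation `g` and the Hodge structure with
operator `h`: the Lie algebra of the `ℓ`-adic image is the Lie algebra of the Mumford-Tate group,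
tensored with `ℚ_ℓ`. -/
def MTConj {ℓ : ℕ} [Fact ℓ.Prime] {Γ : Type} [One Γ] [TopologicalSpace Γ]
    (g : Γ → Blk n ℚ_[ℓ]) (h : Blk n ℂ) : Prop :=
  ∀ Y, Tangent g Y ↔ Y ∈ scal ℚ_[ℓ] (lieMT h)

/-- The extension of a rational linear map `L` between spaces of matrices to the field `F`. -/
noncomputable def extL (F : Type) [Field F] [Algebra ℚ F] {m n : ℕ}
    (L : Matrix (Fin m) (Fin m) ℚ →ₗ[ℚ] Matrix (Fin n) (Fin n) ℚ) :
    Matrix (Fin m) (Fin m) F →ₗ[F] Matrix (Fin n) (Fin n) F where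
  toFun A := ∑ a, ∑ b, A a b • (L (Matrix.single a b 1)).map (algebraMap ℚ F)
  map_add' A B := by
    simp only [Matrix.add_apply, add_smul, Finset.sum_add_distrib]
  map_smul' c A := by
    simp only [Matrix.smul_apply, smul_eq_mul, mul_smul, Finset.smul_sum, RingHom.id_apply]

/-! ### Hyperkähler varieties -/

section

variable {Ω V W : Type} [Field Ω] [AddCommGroup V] [Module Ω V] [AddCommGroup W] [Module Ω W]

/-- The conjugation by `φ` on the endomorphisms of `V`, minus the identity. -/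
noncomputable def conjSub (φ : V ≃ₗ[Ω] V) (a : Module.End Ω V) : Module.End Ω V :=
  adE φ a - a

/-- The elements of `U` act unipotently, by conjugation with `ρ`, on the set `A` of endomorphisms. -/
def UnipotentOn {Γ : Type} (ρ : Γ → V ≃ₗ[Ω] V) (U : Set Γ) (A : Set (Module.End Ω V)) : Prop :=
  ∃ m : ℕ, ∀ σ ∈ U, ∀ a ∈ A, (conjSub (ρ σ))^[m] a = 0

/-- The elements of `U` act trivially, by conjugation with `ρ`, on the set `A` of endomorphisms. -/
def TrivialOn {Γ : Type} (ρ : Γ → V ≃ₗ[Ω] V) (U : Set Γ) (A : Set (Module.End Ω V)) : Prop :=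
  ∀ σ ∈ U, ∀ a ∈ A, adE (ρ σ) a = a

/-- If an open subgroup of `Γ` acts unipotently, by conjugation with `ρ`, on the stable subspace `A` of
the endomorphisms of `V`, then there is an open subgroup whose elements with property `I` act
trivially on `A`. -/
def PotTrivial {Γ : Type} [Group Γ] [TopologicalSpace Γ] (I : Set Γ) (ρ : Γ → V ≃ₗ[Ω] V) : Prop :=
  ∀ A : Submodule Ω (Module.End Ω V), (∀ σ, ∀ a ∈ A, adE (ρ σ) a ∈ A) →
    (∃ U : Subgroup Γ, IsOpen (U : Set Γ) ∧ UnipotentOn ρ U A) →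
    ∃ U : Subgroup Γ, IsOpen (U : Set Γ) ∧ TrivialOn ρ (U ∩ I) A

/-- The matrices `g σ` with `ℓ`-adic coefficients are the matrices of `ρ σ` with respect to the basis
`e`, and they depend continuously on `σ`. -/
def GaloisMatrix {ℓ : ℕ} [Fact ℓ.Prime] [Algebra ℚ_[ℓ] Ω] {Γ : Type} [TopologicalSpace Γ] {n : ℕ}
    (e : Basis (Fin n) Ω V) (ρ : Γ → Module.End Ω V) (g : Γ → Matrix (Fin n) (Fin n) ℚ_[ℓ]) :
    Prop :=
  (∀ σ, LinearMap.toMatrix e e (ρ σ) = (g σ).map (algebraMap ℚ_[ℓ] Ω)) ∧ Continuous g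

/-- The rational matrix `Q` is the matrix of the form `q` with respect to the basis `e`. -/
def FormMatrix [CharZero Ω] {n : ℕ} (e : Basis (Fin n) Ω V) (q : LinearMap.BilinForm Ω V)
    (Q : Matrix (Fin n) (Fin n) ℚ) : Prop :=
  LinearMap.BilinForm.toMatrix e q = Q.map (algebraMap ℚ Ω)

/-- The action `ρ` of the endomorphisms of `V` on `W` is given, with respect to the bases `e` and `e'`,
by the map `R` of rational matrices. -/
def ActionMatrix [CharZero Ω] {m n : ℕ} (e : Basis (Fin m) Ω V) (e' : Basis (Fin n) Ω W)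
    (ρ : Act Ω V W) (R : Matrix (Fin m) (Fin m) ℚ →ₗ[ℚ] Matrix (Fin n) (Fin n) ℚ) : Prop :=
  ∀ A, LinearMap.toMatrix e' e' (ρ (Matrix.toLin e e (A.map (algebraMap ℚ Ω)))) =
    (R A).map (algebraMap ℚ Ω)

/-- The complex matrix `J` is skew-symmetric for the form with the rational matrix `Q`. -/
def SkewMatrix {n : ℕ} (Q : Matrix (Fin n) (Fin n) ℚ) (J : Matrix (Fin n) (Fin n) ℂ) : Prop :=
  Jᵀ * Q.map (algebraMap ℚ ℂ) + Q.map (algebraMap ℚ ℂ) * J = 0

/-- The operator `f` on `W` commutes with all operators which commute with the action `ρ` of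
`so(V, q)`. -/
def CommutesWithCommutant (q : LinearMap.BilinForm Ω V) (ρ : Act Ω V W) (f : Module.End Ω W) :
    Prop :=
  ∀ a : Module.End Ω W, (∀ A, Skew q A → Commute (ρ A) a) → Commute f a

end

section

variable {K : Type} [Field K] [NumberField K] {Ω : Type} [Field Ω] [TopologicalSpace Ω]
  (X : HKVariety K Ω)

/-- Property (PU) of the `ℓ`-adic cohomology: if an open subgroup of the Galois group acts
unipotently on the stable subspace `A` of the endomorphisms of `H^i`, then there is an open subgroup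
whose inertia elements act trivially on `A`. (At the places which do not divide `ℓ` the logarithm `N`
of the monodromy, with `N Φ = q Φ N`, vanishes on `A`, as all eigenvalues of some power of the
Frobenius `Φ` are `1`; at the places above `ℓ` the space `A` is of Hodge-Tate type by Faltings, all its
weights are zero, and so inertia acts by a finite group, by Sen.) -/
def PotUnr : Prop :=
  ∀ i ≤ X.d, PotTrivial {σ | ∃ v, IsInert v σ} fun σ => (X.E.F σ).φ i

/-- An open subgroup of the Galois group acts on `H^i` by operators which commute with all operators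
commuting with `so(H²)`. -/
def OpenCommutes (i : ℕ) : Prop :=
  ∃ U : Subgroup (GK K), IsOpen (U : Set (GK K)) ∧ ∀ σ ∈ U,
    CommutesWithCommutant X.E.X.q (X.E.X.ρ i) (X.E.Φ σ i)

end

/-- The comparison with the singular cohomology of the complex variety `X(ℂ)`: `e i` is a basis of
`H^i(X(ℂ), ℚ)`, `g σ i` the matrix of the action of `σ` on the `ℓ`-adic cohomology
`H^i(X(ℂ), ℚ) ⊗ ℚ_ℓ`, `Q` the matrix of the Beauville-Bogomolov-Fujiki form and `R` the action of
`so(H²)`, which are defined over `ℚ`; `J` is the Hodge operator, which acts as `(p - q) / 2` on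
`H^{p,q}(X)`, `p + q = 2`; it is skew-symmetric for the form, as the form is a morphism of Hodge
structures. The `ℓ`-adic cohomology has the property (PU). -/
structure Betti (ℓ : ℕ) [Fact ℓ.Prime] {K : Type} [Field K] [NumberField K] {Ω : Type} [Field Ω]
    [CharZero Ω] [TopologicalSpace Ω] [Algebra ℚ_[ℓ] Ω] (X : HKVariety K Ω) where
  b : ℕ → ℕ
  e : ∀ i, Basis (Fin (b i)) Ω (X.E.X.H i)
  g : GK K → ∀ i, Matrix (Fin (b i)) (Fin (b i)) ℚ_[ℓ]
  isGalois : ∀ i ≤ X.d, GaloisMatrix (e i) (X.E.Φ · i) (g · i)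
  Q : Matrix (Fin (b 2)) (Fin (b 2)) ℚ
  isForm : FormMatrix (e 2) X.E.X.q Q
  R : ∀ i, Matrix (Fin (b 2)) (Fin (b 2)) ℚ →ₗ[ℚ] Matrix (Fin (b i)) (Fin (b i)) ℚ
  isAction : ∀ i ≤ X.d, ActionMatrix (e 2) (e i) (X.E.X.ρ i) (R i)
  J : Matrix (Fin (b 2)) (Fin (b 2)) ℂ
  isSkew : SkewMatrix Q J
  pot : PotUnr X

section

variable {ℓ : ℕ} [Fact ℓ.Prime] {K : Type} [Field K] [NumberField K] {Ω : Type} [Field Ω]
  [CharZero Ω] [TopologicalSpace Ω] [Algebra ℚ_[ℓ] Ω] {X : HKVariety K Ω} (B : Betti ℓ X)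

theorem Betti.g_eq (i : ℕ) (hi : i ≤ X.d) (σ : GK K) :
    LinearMap.toMatrix (B.e i) (B.e i) (X.E.Φ σ i) = (B.g σ i).map (algebraMap ℚ_[ℓ] Ω) :=
  (B.isGalois i hi).1 σ

theorem Betti.g_cont (i : ℕ) (hi : i ≤ X.d) : Continuous fun σ => B.g σ i :=
  (B.isGalois i hi).2

theorem Betti.Q_eq : LinearMap.BilinForm.toMatrix (B.e 2) X.E.X.q = B.Q.map (algebraMap ℚ Ω) :=
  B.isForm

theorem Betti.R_eq (i : ℕ) (hi : i ≤ X.d) (A : Matrix (Fin (B.b 2)) (Fin (B.b 2)) ℚ) :
    LinearMap.toMatrix (B.e i) (B.e i)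
      (X.E.X.ρ i (Matrix.toLin (B.e 2) (B.e 2) (A.map (algebraMap ℚ Ω)))) =
        (B.R i A).map (algebraMap ℚ Ω) :=
  B.isAction i hi A

theorem Betti.J_skew :
    B.Jᵀ * B.Q.map (algebraMap ℚ ℂ) + B.Q.map (algebraMap ℚ ℂ) * B.J = 0 :=
  B.isSkew

end

section

variable {ℓ : ℕ} [Fact ℓ.Prime] {K : Type} [Field K] [NumberField K] {Ω : Type} [Field Ω]
  [CharZero Ω] [TopologicalSpace Ω] [Algebra ℚ_[ℓ] Ω]

/-- The Hodge operator on `H^i(X(ℂ), ℂ)`, which acts as `p` on `H^{p,q}(X)`, `p + q = i`: it is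
`ρ_i(J) + i / 2` (Verbitsky). -/
noncomputable def Betti.hodge {X : HKVariety K Ω} (B : Betti ℓ X) (i : ℕ) :
    Matrix (Fin (B.b i)) (Fin (B.b i)) ℂ :=
  extL ℂ (B.R i) B.J + ((i : ℂ) / 2) • 1

variable {κ T : Type} (m : κ → ℕ) {X : T → HKVariety K Ω} (B : ∀ j, Betti ℓ (X j))

/-- The sizes of the blocks of the direct sum of a motive `N` and all `H²(X_j)`. -/
def size₂ : κ ⊕ T → ℕ := Sum.elim m fun j => (B j).b 2

/-- The sizes of the blocks of the direct sum of a motive `N` and all `H^i(X_j)`, `i ≤ d_j`. -/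
def sizeAll : κ ⊕ (Σ j, Fin ((X j).d + 1)) → ℕ := Sum.elim m fun x => (B x.1).b x.2

variable {m}

/-- Matrices acting on the blocks of `N` and on all `H²(X_j)`. -/
def join₂ {F : Type} (Y : Blk m F) (Z : ∀ j, Matrix (Fin ((B j).b 2)) (Fin ((B j).b 2)) F) :
    Blk (size₂ m B) F
  | .inl k => Y k
  | .inr j => Z j

/-- Matrices acting on the blocks of `N` and on all `H^i(X_j)`. -/
def joinAll {F : Type} (Y : Blk m F)
    (Z : ∀ (j : T) (i : ℕ), Matrix (Fin ((B j).b i)) (Fin ((B j).b i)) F) :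
    Blk (sizeAll m B) F
  | .inl k => Y k
  | .inr x => Z x.1 x.2

/-- The Galois representation on the direct sum of `N` and all `H²(X_j)`. -/
def rep₂ (gN : GK K → Blk m ℚ_[ℓ]) (σ : GK K) : Blk (size₂ m B) ℚ_[ℓ] :=
  join₂ B (gN σ) fun j => (B j).g σ 2

/-- The Galois representation on the direct sum of `N` and all `H^i(X_j)`. -/
def repAll (gN : GK K → Blk m ℚ_[ℓ]) (σ : GK K) : Blk (sizeAll m B) ℚ_[ℓ] :=
  joinAll B (gN σ) fun j i => (B j).g σ i

/-- The Hodge structure on the direct sum of `N` and all `H²(X_j)`. -/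
noncomputable def hodge₂ (hN : Blk m ℂ) : Blk (size₂ m B) ℂ :=
  join₂ B hN fun j => (B j).hodge 2

/-- The Hodge structure on the direct sum of `N` and all `H^i(X_j)`. -/
noncomputable def hodgeAll (hN : Blk m ℂ) : Blk (sizeAll m B) ℂ :=
  joinAll B hN fun j i => (B j).hodge i

/-- The matrix `ρ_i(Z - c) + (i / 2) c`, where `c` is the trace of `Z` divided by its size `b₂`: the
action on `H^i` of the element `Z` of `so(H²) ⊕ F`. -/
noncomputable def Betti.lam (F : Type) [Field F] [Algebra ℚ F] {X : HKVariety K Ω}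
    (B : Betti ℓ X) (i : ℕ) (Z : Matrix (Fin (B.b 2)) (Fin (B.b 2)) F) :
    Matrix (Fin (B.b i)) (Fin (B.b i)) F :=
  extL F (B.R i) (Z - (Z.trace / (B.b 2)) • 1) + ((i : F) / 2 * (Z.trace / (B.b 2))) • 1

/-- The map from matrices acting on `N` and all `H²(X_j)` to matrices acting on `N` and all
`H^i(X_j)`. -/
noncomputable def lamAll (F : Type) [Field F] [Algebra ℚ F] (Y : Blk (size₂ m B) F) :
    Blk (sizeAll m B) F :=
  joinAll B (fun k => Y (.inl k)) fun j i => (B j).lam F i (Y (.inr j))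

end

end Pool.Agent.K4H28.MT
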