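import Pool.Agent.N858.DS.Burn

/-!
# Kolchin's theorem, and groups acting unipotently
-/

set_option autoImplicit false

namespace Pool.Agent.K4H28.MT

open Module

section

variable {Ω V : Type} [Field Ω] [IsAlgClosed Ω] [AddCommGroup V] [Module Ω V]
  [FiniteDimensional Ω V]

omit [IsAlgClosed Ω] in
theorem eq_zero_of_tr (f : Module.End Ω V) (h : ∀ g : Module.End Ω V,
    LinearMap.trace Ω V (f * g) = 0) : f = 0 := by
  ext v
  rw [LinearMap.zero_apply, ← Module.forall_dual_apply_eq_zero_iff Ω]
  intro φ
  have h1 := h (φ.smulRight v)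
  have h2 : f * φ.smulRight v = φ.smulRight (f v) := by
    ext w
    simp
  rw [h2, LinearMap.trace_smulRight] at h1
  exact h1

omit [IsAlgClosed Ω] in
omit [FiniteDimensional Ω V] in
theorem tr_unip {u : Module.End Ω V} (h : IsNilpotent (u - 1)) :
    LinearMap.trace Ω V u = LinearMap.trace Ω V 1 := by
  have h1 := (LinearMap.isNilpotent_trace_of_isNilpotent h).eq_zero
  rw [map_sub, sub_eq_zero] at h1
  exact h1

/-- Kolchin's theorem on coordinate spaces, irreducible case. -/
theorem kol_irr {n : ℕ} {G : Type} [Monoid G] (r : G →* Module.End Ω (Fin n → Ω))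
    (hu : ∀ g, IsNilpotent (r g - 1))
    (hirr : ∀ W : Submodule Ω (Fin n → Ω), (∀ g, ∀ w ∈ W, r g w ∈ W) → W = ⊥ ∨ W = ⊤) (g : G) :
    r g = 1 := by
  rcases Nat.eq_zero_or_pos n with h0 | h0
  · subst h0
    exact Subsingleton.elim _ _
  have hfull := Pool.Agent.N858.DS.full h0 (M := fun g : G => LinearMap.toMatrix' (r g)) (by
    intro W hW
    refine hirr W fun g w hw => ?_
    have := hW g w hw
    rwa [← Matrix.toLin'_apply, Matrix.toLin'_toMatrix'] at this)
  simp only [Matrix.toLin'_toMatrix'] at hfull
  rw [← sub_eq_zero]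
  refine eq_zero_of_tr _ fun a => ?_
  have ha : a ∈ Algebra.adjoin Ω (Set.range fun g => r g) := by
    rw [hfull]; exact Algebra.mem_top
  have hcl : Submonoid.closure (Set.range fun g => r g) = MonoidHom.mrange r := by
    apply le_antisymm
    · rw [Submonoid.closure_le]
      rintro _ ⟨g, rfl⟩
      exact ⟨g, rfl⟩
    · rintro _ ⟨g, rfl⟩
      exact Submonoid.subset_closure ⟨g, rfl⟩
  rw [← Subalgebra.mem_toSubmodule, Algebra.adjoin_eq_span, hcl] at ha
  induction ha using Submodule.span_induction with
  | mem x hx =>
    obtain ⟨g', rfl⟩ := hx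
    rw [sub_mul, one_mul, ← map_mul, map_sub, tr_unip (hu _), tr_unip (hu _), sub_self]
  | zero => simp
  | add x y _ _ hx hy => rw [mul_add, map_add, hx, hy, add_zero]
  | smul c x _ hx => rw [mul_smul_comm, map_smul, hx, smul_zero]

/-- **Kolchin's theorem.** -/
theorem kolchin (n : ℕ) : ∀ {V : Type} [AddCommGroup V] [Module Ω V] [FiniteDimensional Ω V],
    finrank Ω V = n → Nontrivial V → ∀ {G : Type} [Monoid G] (r : G →* Module.End Ω V),
    (∀ g, IsNilpotent (r g - 1)) → ∃ v : V, v ≠ 0 ∧ ∀ g, r g v = v := by
  induction n using Nat.strong_induction_on with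
  | _ n ih =>
    intro V _ _ _ hn hnt G _ r hu
    by_cases hirr : ∀ W : Submodule Ω V, (∀ g, ∀ w ∈ W, r g w ∈ W) → W = ⊥ ∨ W = ⊤
    · -- irreducible
      let b := Module.finBasis Ω V
      let e : V ≃ₗ[Ω] (Fin (finrank Ω V) → Ω) := b.equivFun
      let r' : G →* Module.End Ω (Fin (finrank Ω V) → Ω) :=
        (e.conjRingEquiv : Module.End Ω V →* Module.End Ω (Fin (finrank Ω V) → Ω)).comp r
      have hr' : ∀ g, ∀ x, r' g (e x) = e (r g x) := fun g x => by
        change e (r g (e.symm (e x))) = _
        rw [e.symm_apply_apply]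
      have h1 := kol_irr r' (fun g => by
        have h2 : r' g - 1 = e.conjRingEquiv (r g - 1) := by
          rw [map_sub, map_one]; rfl
        rw [h2]
        exact (hu g).map e.conjRingEquiv) (fun W hW => by
        have h3 := hirr (W.comap (e : V →ₗ[Ω] (Fin (finrank Ω V) → Ω))) (fun g w hw => by
          rw [Submodule.mem_comap] at hw ⊢
          have := hW g _ hw
          have h4 := hr' g w
          change e (r g w) ∈ W
          rw [← h4]
          exact this)
        rcases h3 with h3 | h3
        · left
          rw [eq_bot_iff]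
          intro x hx
          have : e.symm x ∈ W.comap (e : V →ₗ[Ω] (Fin (finrank Ω V) → Ω)) := by
            rw [Submodule.mem_comap]
            change e (e.symm x) ∈ W
            rw [e.apply_symm_apply]; exact hx
          rw [h3, Submodule.mem_bot] at this
          rw [Submodule.mem_bot, ← e.apply_symm_apply x, this, map_zero]
        · right
          rw [eq_top_iff]
          intro x _
          have : e.symm x ∈ W.comap (e : V →ₗ[Ω] (Fin (finrank Ω V) → Ω)) := by
            rw [h3]; trivial
          rw [Submodule.mem_comap] at this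
          change e (e.symm x) ∈ W at this
          rwa [e.apply_symm_apply] at this)
      obtain ⟨v, hv⟩ := exists_ne (0 : V)
      refine ⟨v, hv, fun g => ?_⟩
      have h2 := hr' g v
      rw [h1 g] at h2
      exact (e.injective h2).symm
    · push Not at hirr
      obtain ⟨W, hW, hb, ht⟩ := hirr
      have hlt : finrank Ω W < n := by
        rw [← hn]
        exact Submodule.finrank_lt ht
      let r' : G →* Module.End Ω W :=
        { toFun := fun g => (r g).restrict (hW g)
          map_one' := by ext w; simp [LinearMap.restrict_apply]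
          map_mul' := fun a b => by ext w; simp [LinearMap.restrict_apply] }
      have hnt' : Nontrivial W := Submodule.nontrivial_iff_ne_bot.2 hb
      obtain ⟨v, hv, hf⟩ := ih _ hlt rfl hnt' r' (fun g => by
        obtain ⟨k, hk⟩ := hu g
        refine ⟨k, ?_⟩
        have h3 : ∀ k : ℕ, ∀ w : W, ((((r' g - 1) ^ k : Module.End Ω W) w : W) : V) =
            ((r g - 1) ^ k : Module.End Ω V) w := by
          intro k
          induction k with
          | zero => intro w; rfl
          | succ k ih =>
            intro w
            rw [pow_succ, pow_succ, Module.End.mul_apply, Module.End.mul_apply, ih]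
            rfl
        ext w
        rw [h3, hk]; rfl)
      refine ⟨v, fun h => hv (Subtype.ext h), fun g => ?_⟩
      exact congrArg Subtype.val (hf g)

/-- A group of unipotent operators with no nonzero additive characters (of the relevant type) is
trivial. -/
theorem unip_trivial {V : Type} [AddCommGroup V] [Module Ω V] [FiniteDimensional Ω V]
    {G : Type} [Group G] (r : G →* Module.End Ω V) (hu : ∀ g, IsNilpotent (r g - 1))
    (hχ : ∀ (v : V) (φ : Module.Dual Ω V), (∀ g h, φ (r (g * h) v - v) = φ (r g v - v) + φ (r h v - v)) →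
      ∀ g, φ (r g v - v) = 0) (g : G) : r g = 1 := by
  -- the fixed space
  let F : Submodule Ω V :=
    { carrier := {v | ∀ g, r g v = v}
      zero_mem' := fun g => map_zero _
      add_mem' := fun {a b} ha hb g => by rw [map_add, ha g, hb g]
      smul_mem' := fun c v hv g => by rw [map_smul, hv g] }
  by_contra hne
  have hF : F ≠ ⊤ := by
    intro h
    apply hne
    ext v
    have : v ∈ F := by rw [h]; trivial
    exact this g
  have hst : ∀ g, F ≤ F.comap (r g) := fun g v hv => by
    rw [Submodule.mem_comap, hv g]
    exact hv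
  let r' : G →* Module.End Ω (V ⧸ F) :=
    { toFun := fun g => F.mapQ F (r g) (hst g)
      map_one' := by
        ext v
        simp
      map_mul' := fun a b => by
        ext v
        simp }
  have hr' : ∀ g v, r' g (F.mkQ v) = F.mkQ (r g v) := fun g v => rfl
  have hnt : Nontrivial (V ⧸ F) := Submodule.Quotient.nontrivial_iff.2 hF
  obtain ⟨w, hw, hfix⟩ := kolchin _ rfl hnt r' (fun g => by
    obtain ⟨k, hk⟩ := hu g
    refine ⟨k, ?_⟩
    have h3 : ∀ k : ℕ, ∀ v : V, ((r' g - 1) ^ k : Module.End Ω (V ⧸ F)) (F.mkQ v) =
        F.mkQ (((r g - 1) ^ k : Module.End Ω V) v) := by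
      intro k
      induction k with
      | zero => intro w; rfl
      | succ k ih =>
        intro w
        rw [pow_succ, pow_succ, Module.End.mul_apply, Module.End.mul_apply, ← ih]
        rfl
    refine Submodule.linearMap_qext _ ?_
    ext v
    change ((r' g - 1) ^ k) (F.mkQ v) = 0
    rw [h3, hk]; simp)
  obtain ⟨v, rfl⟩ := F.mkQ_surjective w
  apply hw
  rw [Submodule.mkQ_apply, Submodule.Quotient.mk_eq_zero]
  have h1 : ∀ g, r g v - v ∈ F := by
    intro g
    have := hfix g
    rw [hr', Submodule.mkQ_apply, Submodule.mkQ_apply, Submodule.Quotient.eq] at this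
    exact this
  intro g
  rw [← sub_eq_zero, ← Module.forall_dual_apply_eq_zero_iff Ω]
  intro φ
  refine hχ v φ (fun a b => ?_) g
  rw [← map_add]
  congr 1
  have h2 : r (a * b) v - v = r a (r b v - v) + (r a v - v) := by
    rw [map_mul, Module.End.mul_apply, map_sub]
    abel
  rw [h2, h1 b a]
  abel

end

end Pool.Agent.K4H28.MT
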