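import Pool.Agent.N184.HK.W6
import Pool.Agent.K4H28.MT.Kol
import Pool.Agent.K4H28.MT.Dfn

/-!
# An open subgroup acts trivially on the commutant of `so(H²)`
-/

set_option autoImplicit false

namespace Pool.Agent.K4H28.MT

open Module Module.End Polynomial NumberField IsDedekindDomain Filter Topology
open Pool.Agent.W401.Cheb Pool.Agent.N184.HK

section lin

variable {Ω V : Type} [Field Ω] [IsAlgClosed Ω] [AddCommGroup V] [Module Ω V]
  [FiniteDimensional Ω V]

theorem fop_pow_eq (f : Module.End Ω V) (k : ℕ) :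
    fop (f ^ k) (fun x => x) = fop f (fun x => x ^ k) := by
  refine ext_gen f fun e x hx => ?_
  rw [fop_apply _ hx]
  have h1 : x ∈ (f ^ k).maxGenEigenspace (e ^ k) := by
    rw [Module.End.mem_maxGenEigenspace] at hx ⊢
    obtain ⟨n, hn⟩ := hx
    refine ⟨n, ?_⟩
    have hc : Commute f (e • (1 : Module.End Ω V)) := (Commute.one_right f).smul_right e
    have h2 := hc.geom_sum₂_mul k
    have h3 : (e • (1 : Module.End Ω V)) ^ k = e ^ k • 1 := by
      rw [_root_.smul_pow, one_pow]
    rw [h3] at h2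
    have h4 : Commute (∑ i ∈ Finset.range k, f ^ i * (e • (1 : Module.End Ω V)) ^ (k - 1 - i))
        (f - e • 1) := by
      refine Commute.sum_left _ _ _ fun i _ => ?_
      refine Commute.mul_left ?_ ?_
      · exact Commute.pow_left ((Commute.refl f).sub_right hc) i
      · exact Commute.pow_left (hc.symm.sub_right (Commute.refl _)) _
    rw [← h2, h4.mul_pow, Module.End.mul_apply, hn, map_zero]
  rw [fop_apply _ h1]

theorem tr_pow (f : Module.End Ω V) (k : ℕ) :
    LinearMap.trace Ω V (f ^ k) = (f.charpoly.roots.map (fun x => x ^ k)).sum := by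
  have h := tr_nil (nil_part (f ^ k))
  rw [map_sub, sub_eq_zero, fop_pow_eq, tr_fop] at h
  exact h

theorem card_rts (f : Module.End Ω V) : Multiset.card f.charpoly.roots = finrank Ω V := by
  rw [← (IsAlgClosed.splits _).natDegree_eq_card_roots, LinearMap.charpoly_natDegree]

omit [IsAlgClosed Ω] in
theorem root_pow {f : Module.End Ω V} {M m : ℕ} (h : (f ^ M - 1) ^ m = 0) {x : Ω}
    (hx : x ∈ f.charpoly.roots) : x ^ M = 1 := by
  rw [Polynomial.mem_roots (LinearMap.charpoly_monic f).ne_zero,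
    ← Module.End.hasEigenvalue_iff_isRoot_charpoly] at hx
  obtain ⟨v, hv⟩ := hx.exists_hasEigenvector
  have h1 : ∀ k, (f ^ k) v = x ^ k • v := by
    intro k
    induction k with
    | zero => simp
    | succ k ih =>
      rw [_root_.pow_succ', Module.End.mul_apply, ih, map_smul, hv.apply_eq_smul, smul_smul,
        _root_.pow_succ]
  have h2 : ∀ m : ℕ, ((f ^ M - 1) ^ m : Module.End Ω V) v = (x ^ M - 1) ^ m • v := by
    intro m
    induction m with
    | zero => simp
    | succ m ih =>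
      rw [_root_.pow_succ', Module.End.mul_apply, ih, map_smul, LinearMap.sub_apply, h1,
        Module.End.one_apply, _root_.pow_succ, mul_smul, sub_smul, one_smul]
  have h3 := h2 m
  rw [h, LinearMap.zero_apply] at h3
  have h4 := (smul_eq_zero.1 h3.symm).resolve_right hv.2
  exact sub_eq_zero.1 (eq_zero_of_pow_eq_zero h4)

open scoped Classical in
omit [IsAlgClosed Ω] in
theorem sum_pows [CharZero Ω] (s : Multiset Ω) (M : ℕ) (h : ∀ x ∈ s, x ^ M = 1) :
    ∑ k ∈ Finset.range M, (s.map (fun x => x ^ k)).sum = M * (s.count 1 : Ω) := by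
  induction s using Multiset.induction_on with
  | empty => simp
  | cons a s ih =>
    simp only [Multiset.map_cons, Multiset.sum_cons]
    rw [Finset.sum_add_distrib, ih fun x hx => h x (Multiset.mem_cons_of_mem hx),
      Multiset.count_cons]
    by_cases ha : a = 1
    · subst ha
      simp
      ring
    · have h1 := mul_geom_sum a M
      rw [h a (Multiset.mem_cons_self a s), sub_self] at h1
      have h2 := (mul_eq_zero.1 h1).resolve_left (sub_ne_zero.2 ha)
      rw [h2, if_neg (Ne.symm ha)]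
      simp

theorem unip_of_tr [CharZero Ω] {f : Module.End Ω V} {M m : ℕ} (hM : 0 < M)
    (h : (f ^ M - 1) ^ m = 0) (ht : ∀ k, LinearMap.trace Ω V (f ^ k) = finrank Ω V) :
    IsNilpotent (f - 1) := by
  classical
  have h1 := sum_pows f.charpoly.roots M (fun x hx => root_pow h hx)
  simp only [← tr_pow, ht] at h1
  rw [Finset.sum_const, Finset.card_range, nsmul_eq_mul] at h1
  have h2 := mul_left_cancel₀ (Nat.cast_ne_zero.2 hM.ne') h1
  have h3 : finrank Ω V = f.charpoly.roots.count 1 := by exact_mod_cast h2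
  rw [← card_rts f] at h3
  have h4 : ∀ x ∈ f.charpoly.roots, 1 = x := Multiset.count_eq_card.1 h3.symm
  refine nil_of_roots fun x hx => ?_
  rw [Polynomial.mem_roots (LinearMap.charpoly_monic _).ne_zero,
    ← Module.End.hasEigenvalue_iff_isRoot_charpoly] at hx
  obtain ⟨v, hv⟩ := hx.exists_hasEigenvector
  have h5 : f v = (x + 1) • v := by
    have := hv.apply_eq_smul
    rw [LinearMap.sub_apply, Module.End.one_apply, sub_eq_iff_eq_add] at this
    rw [this, add_smul, one_smul]
  have h6 : f.HasEigenvalue (x + 1) := Module.End.hasEigenvalue_of_hasEigenvector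
    ⟨Module.End.mem_eigenspace_iff.2 h5, hv.2⟩
  rw [Module.End.hasEigenvalue_iff_isRoot_charpoly] at h6
  have h7 := h4 _ ((Polynomial.mem_roots (LinearMap.charpoly_monic _).ne_zero).2 h6)
  exact left_eq_add.1 (h7.trans (add_comm _ _))

omit [IsAlgClosed Ω] in
theorem fin_sums (S : Set Ω) (hS : S.Finite) (D : ℕ) :
    {y : Ω | ∃ s : Multiset Ω, Multiset.card s = D ∧ (∀ x ∈ s, x ∈ S) ∧ s.sum = y}.Finite := by
  induction D with
  | zero =>
    refine (Set.finite_singleton (0 : Ω)).subset ?_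
    rintro y ⟨s, hs, -, rfl⟩
    rw [Multiset.card_eq_zero.1 hs]
    simp
  | succ D ih =>
    refine (Set.Finite.image2 (fun a b => a + b) hS ih).subset ?_
    rintro y ⟨s, hs, hx, rfl⟩
    obtain ⟨a, t, rfl⟩ := (Multiset.card_pos_iff_exists_mem.1 (by omega : 0 < Multiset.card s)).imp
      fun a ha => Multiset.exists_cons_of_mem ha
    rw [Multiset.card_cons] at hs
    refine ⟨a, hx a (Multiset.mem_cons_self _ _), t.sum, ⟨t, by omega, fun x h =>
      hx x (Multiset.mem_cons_of_mem h), rfl⟩, ?_⟩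
    simp

end lin

section gal

variable {K : Type} [Field K] [NumberField K] {Ω : Type} [Field Ω] [CharZero Ω] [IsAlgClosed Ω]
  [TopologicalSpace Ω] [IsTopologicalRing Ω] [T2Space Ω] (X : HKVariety K Ω)

/-- The action of `σ` on the commutant of `so(H²)`. -/
noncomputable def rc (i : ℕ) (σ : GK K) : Module.End Ω (cen X.E.X i) :=
  (adE ((X.E.F σ).φ i)).restrict (fun _ hx => cen_ad (X.E.F σ) hx)

omit [CharZero Ω] [IsAlgClosed Ω] [IsTopologicalRing Ω] [T2Space Ω] in
theorem rc_apply (i : ℕ) (σ : GK K) (a : cen X.E.X i) :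
    (rc X i σ a : Module.End Ω (X.E.X.H i)) = adE ((X.E.F σ).φ i) a := rfl

omit [CharZero Ω] [IsAlgClosed Ω] [IsTopologicalRing Ω] [T2Space Ω] in
theorem rc_mul (i : ℕ) (σ τ : GK K) : rc X i (σ * τ) = rc X i σ * rc X i τ := by
  refine LinearMap.ext fun a => Subtype.ext ?_
  exact adE_mul_apply X.E σ τ i a

omit [CharZero Ω] [IsAlgClosed Ω] [IsTopologicalRing Ω] [T2Space Ω] in
theorem rc_one (i : ℕ) : rc X i 1 = 1 := by
  refine LinearMap.ext fun a => Subtype.ext ?_
  rw [rc_apply]
  refine LinearMap.ext fun x => ?_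
  have h1 : (X.E.F 1).φ i x = x := phi_one X.E i x
  have h2 : (X.E.F 1).φ i (a.1 x) = a.1 x := phi_one X.E i _
  have h3 := adE_apply ((X.E.F 1).φ i) a.1 x
  rw [h1, h2] at h3
  exact h3

/-- The representation on the commutant. -/
noncomputable def rch (i : ℕ) : GK K →* Module.End Ω (cen X.E.X i) where
  toFun := rc X i
  map_one' := rc_one X i
  map_mul' := rc_mul X i

theorem rc_quasi {i : ℕ} (hi : i ≤ X.d) (σ : GK K) :
    ((rc X i σ) ^ (expo X i) - 1) ^ (finrank Ω (cen X.E.X i)) = 0 := by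
  refine LinearMap.ext fun a => Subtype.ext ?_
  have h1 := all_quasi X hi a.2 σ
  have h2 := restrict_quasi (p := cen X.E.X i) (f := rc X i σ)
      (g := adE ((X.E.F σ).φ i)) (fun x => rfl) (expo X i) (finrank Ω (cen X.E.X i)) a
  rw [h2, h1]
  rfl

omit [CharZero Ω] [IsAlgClosed Ω] [T2Space Ω] in
theorem cts_coord (i : ℕ) (a : cen X.E.X i) (L : Module.Dual Ω (cen X.E.X i)) :
    Continuous fun σ => L (rc X i σ a) := by
  obtain ⟨π, hπ⟩ := LinearMap.exists_leftInverse_of_injective (cen X.E.X i).subtype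
    (Submodule.ker_subtype _)
  have h1 := cts_adE X.E i (g := fun _ => (a : Module.End Ω (X.E.X.H i)))
    (fun L => continuous_const) (L ∘ₗ π)
  refine h1.congr fun σ => ?_
  have h2 : π (rc X i σ a : Module.End Ω (X.E.X.H i)) = rc X i σ a :=
    congrArg (fun f => f (rc X i σ a)) hπ
  change L (π (adE ((X.E.F σ).φ i) a)) = _
  rw [← rc_apply, h2]

omit [CharZero Ω] [IsAlgClosed Ω] [T2Space Ω] in
theorem cts_trace (i : ℕ) : Continuous fun σ => LinearMap.trace Ω (cen X.E.X i) (rc X i σ) := by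
  let b := Module.finBasis Ω (cen X.E.X i)
  have h1 : (fun σ => LinearMap.trace Ω (cen X.E.X i) (rc X i σ)) =
      fun σ => ∑ k, b.coord k (rc X i σ (b k)) := by
    funext σ
    rw [LinearMap.trace_eq_matrix_trace Ω b, Matrix.trace]
    refine Finset.sum_congr rfl fun k _ => ?_
    rw [Matrix.diag_apply, LinearMap.toMatrix_apply, Module.Basis.coord_apply]
  rw [h1]
  exact continuous_finsetSum _ fun k _ => cts_coord X i (b k) (b.coord k)

/-- An open subgroup acts unipotently on the commutant. -/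
theorem open_unip {i : ℕ} (hi : i ≤ X.d) : ∃ U : Subgroup (GK K), IsOpen (U : Set (GK K)) ∧
    ∀ σ ∈ U, IsNilpotent (rc X i σ - 1) := by
  classical
  have hM : 0 < expo X i := Nat.factorial_pos _
  set S : Set Ω := {x | x ^ expo X i = 1} with hS
  have hSf : S.Finite := by
    refine ((nthRoots (expo X i) (1 : Ω)).toFinset.finite_toSet).subset fun x hx => ?_
    rw [Finset.mem_coe, Multiset.mem_toFinset, mem_nthRoots hM]
    exact hx
  set T := {y : Ω | ∃ s : Multiset Ω, Multiset.card s = finrank Ω (cen X.E.X i) ∧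
    (∀ x ∈ s, x ∈ S) ∧ s.sum = y} with hT
  have hTf : T.Finite := fin_sums S hSf _
  have hmem : ∀ σ, LinearMap.trace Ω (cen X.E.X i) (rc X i σ) ∈ T := by
    intro σ
    refine ⟨(rc X i σ).charpoly.roots, card_rts _, fun x hx => root_pow (rc_quasi X hi σ) hx, ?_⟩
    have h1 := tr_pow (rc X i σ) 1
    simp only [pow_one, Multiset.map_id'] at h1
    exact h1.symm
  set c0 : Ω := ((finrank Ω (cen X.E.X i) : ℕ) : Ω) with hc0
  have hopen : IsOpen {σ : GK K | LinearMap.trace Ω (cen X.E.X i) (rc X i σ) = c0} := by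
    have h2 : {σ : GK K | LinearMap.trace Ω (cen X.E.X i) (rc X i σ) = c0} =
        ((fun σ => LinearMap.trace Ω (cen X.E.X i) (rc X i σ)) ⁻¹' (T \ {c0}))ᶜ := by
      ext σ
      simp only [Set.mem_ofPred_eq, Set.mem_compl_iff, Set.mem_preimage, Set.mem_diff,
        Set.mem_singleton_iff, not_and, not_not]
      exact ⟨fun h _ => h, fun h => h (hmem σ)⟩
    rw [h2]
    exact ((hTf.subset Set.diff_subset).isClosed.preimage (cts_trace X i)).isOpen_compl
  have h1 : {σ : GK K | LinearMap.trace Ω (cen X.E.X i) (rc X i σ) = c0} ∈ 𝓝 (1 : GK K) := by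
    refine hopen.mem_nhds ?_
    rw [Set.mem_ofPred_eq, rc_one, LinearMap.trace_one]
  rw [krullTopology_mem_nhds_one_iff] at h1
  obtain ⟨E, hE, hsub⟩ := h1
  refine ⟨E.fixingSubgroup, E.fixingSubgroup_isOpen, fun σ hσ => ?_⟩
  refine unip_of_tr hM (rc_quasi X hi σ) fun k => ?_
  have h3 : (rc X i σ) ^ k = rc X i (σ ^ k) := (map_pow (rch X i) σ k).symm
  rw [h3]
  exact hsub (Subgroup.pow_mem _ hσ k)

/-- A number field has no unramified additive characters. -/
def NoUnr (K Ω : Type) [Field K] [NumberField K] [Field Ω] [TopologicalSpace Ω] : Prop :=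
  ∀ U : Subgroup (GK K), IsOpen (U : Set (GK K)) → ∀ χ : GK K → Ω, Continuous χ →
    (∀ σ ∈ U, ∀ τ ∈ U, χ (σ * τ) = χ σ + χ τ) → (∀ σ ∈ U, ∀ v, IsInert v σ → χ σ = 0) →
    ∀ σ ∈ U, χ σ = 0

theorem cen_trivial (hPU : PotUnr X) (hcft : NoUnr K Ω) {i : ℕ} (hi : i ≤ X.d) :
    ∃ U : Subgroup (GK K), IsOpen (U : Set (GK K)) ∧ ∀ σ ∈ U, ∀ a ∈ cen X.E.X i,
      adE ((X.E.F σ).φ i) a = a := by
  obtain ⟨U, hU, hn⟩ := open_unip X hi
  have hit : ∀ (σ : GK K) (m : ℕ) (a : Module.End Ω (X.E.X.H i)),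
      (conjSub ((X.E.F σ).φ i))^[m] a = ((adE ((X.E.F σ).φ i) - 1) ^ m) a := by
    intro σ m
    induction m with
    | zero => intro a; rfl
    | succ m ih =>
      intro a
      rw [Function.iterate_succ_apply, ih, _root_.pow_succ, Module.End.mul_apply]
      rfl
  obtain ⟨U', hU', hin⟩ := hPU i hi (cen X.E.X i) (fun σ a ha => cen_ad _ ha)
    ⟨U, hU, finrank Ω (cen X.E.X i), fun σ hσ a ha => by
      rw [hit]
      have h1 : (rc X i σ - 1) ^ (finrank Ω (cen X.E.X i)) = 0 := by
        have h2 := (hn σ hσ).charpoly_eq_X_pow_finrank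
        have h3 := (rc X i σ - 1).aeval_self_charpoly
        rw [h2, map_pow, aeval_X] at h3
        exact h3
      have h4 := restrict_quasi (p := cen X.E.X i) (f := rc X i σ)
        (g := adE ((X.E.F σ).φ i)) (fun x => rfl) 1 (finrank Ω (cen X.E.X i)) ⟨a, ha⟩
      rw [pow_one, pow_one, h1] at h4
      exact h4.symm⟩
  replace hin : ∀ σ ∈ U', ∀ v, IsInert v σ → ∀ a ∈ cen X.E.X i, adE ((X.E.F σ).φ i) a = a :=
    fun σ hσ v hv a ha => hin σ ⟨hσ, v, hv⟩ a ha
  refine ⟨U ⊓ U', hU.inter hU', fun σ hσ a ha => ?_⟩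
  let r : (U ⊓ U' : Subgroup (GK K)) →* Module.End Ω (cen X.E.X i) :=
    (rch X i).comp (U ⊓ U' : Subgroup (GK K)).subtype
  have h5 := unip_trivial r (fun g => hn g.1 g.2.1) (fun v φ hadd g => by
    refine hcft (U ⊓ U') (hU.inter hU') (fun σ => φ (rc X i σ v - v)) ?_
      (fun σ hσ τ hτ => hadd ⟨σ, hσ⟩ ⟨τ, hτ⟩) (fun σ hσ w hw => ?_) g.1 g.2
    · have h6 := (cts_coord X i v φ).sub (continuous_const (y := φ v))
      refine h6.congr fun σ => ?_
      rw [map_sub]
      rfl
    · have h7 : rc X i σ v = v := Subtype.ext (hin σ hσ.2 w hw v.1 v.2)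
      rw [h7, sub_self, map_zero]) ⟨σ, hσ⟩
  have h8 := congrArg (fun f => ((f ⟨a, ha⟩ : cen X.E.X i) : Module.End Ω (X.E.X.H i))) h5
  exact h8

end gal

end Pool.Agent.K4H28.MT
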