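import Mathlib

/-!
# Lifting of tangent vectors
-/

set_option autoImplicit false

namespace Pool.Agent.K4H28.MT

open Filter Topology

section

variable {𝕜 E E₀ Γ : Type} [NontriviallyNormedField 𝕜] [NormedAddCommGroup E] [NormedSpace 𝕜 E]
  [NormedAddCommGroup E₀] [NormedSpace 𝕜 E₀] [TopologicalSpace Γ]

/-- `Y` is a tangent vector of `g` at `x₀`. -/
def TanAt (𝕜 : Type) {E Γ : Type} [NontriviallyNormedField 𝕜] [NormedAddCommGroup E]
    [NormedSpace 𝕜 E] [TopologicalSpace Γ] (g : Γ → E) (x₀ : Γ) (Y : E) : Prop :=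
  ∃ s : ℕ → Γ, Tendsto s atTop (𝓝 x₀) ∧ ∃ t : ℕ → 𝕜, (∀ k, t k ≠ 0) ∧ Tendsto t atTop (𝓝 0) ∧
    Tendsto (fun k => (t k)⁻¹ • (g (s k) - g x₀)) atTop (𝓝 Y)

theorem tan_lift [ProperSpace E] {g : Γ → E} {x₀ : Γ} (hg : ContinuousAt g x₀) (π : E →L[𝕜] E₀)
    (hinj : ∀ U, TanAt 𝕜 g x₀ U → π U = 0 → U = 0) {Y₀ : E₀}
    (h : TanAt 𝕜 (fun x => π (g x)) x₀ Y₀) : ∃ Y, TanAt 𝕜 g x₀ Y ∧ π Y = Y₀ := by
  obtain ⟨s, hs, t, ht0, ht, hlim⟩ := h
  set y : ℕ → E := fun k => (t k)⁻¹ • (g (s k) - g x₀) with hy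
  have hx : Tendsto (fun k => g (s k) - g x₀) atTop (𝓝 0) := by
    have h1 := (hg.tendsto.comp hs).sub_const (g x₀)
    rw [sub_self] at h1
    exact h1
  have hπy : ∀ k, π (y k) = (t k)⁻¹ • (π (g (s k)) - π (g x₀)) := fun k => by
    rw [hy]; simp only [map_smul, map_sub]
  have hlim' : Tendsto (fun k => π (y k)) atTop (𝓝 Y₀) := hlim.congr fun k => (hπy k).symm
  by_cases hb : ∃ C : ℝ, ∃ᶠ k in atTop, ‖y k‖ ≤ C
  · obtain ⟨C, hC⟩ := hb
    obtain ⟨φ, hφ, hφC⟩ := Filter.extraction_of_frequently_atTop hC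
    obtain ⟨Y, -, ψ, hψ, hY⟩ := (isCompact_closedBall (0 : E) C).tendsto_subseq
      (x := fun k => y (φ k)) (fun k => by
        rw [mem_closedBall_zero_iff]; exact hφC k)
    have hcomp : Tendsto (fun k => φ (ψ k)) atTop atTop :=
      hφ.tendsto_atTop.comp hψ.tendsto_atTop
    refine ⟨Y, ⟨fun k => s (φ (ψ k)), hs.comp hcomp, fun k => t (φ (ψ k)), fun k => ht0 _,
      ht.comp hcomp, hY⟩, ?_⟩
    exact tendsto_nhds_unique ((π.continuous.tendsto Y).comp hY) (hlim'.comp hcomp)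
  · exfalso
    push Not at hb
    have hinf : Tendsto (fun k => ‖y k‖) atTop atTop := by
      rw [tendsto_atTop]
      intro C
      exact (hb C).mono fun k hk => le_of_lt hk
    obtain ⟨c, hc⟩ := NormedField.exists_one_lt_norm 𝕜
    obtain ⟨N, hN⟩ := (hb 1).exists_forall_of_atTop
    have hyne : ∀ k, N ≤ k → g (s k) - g x₀ ≠ 0 := by
      intro k hk h0
      have := hN k hk
      rw [hy] at this
      simp only [h0, smul_zero, norm_zero] at this
      linarith
    have hsh : ∀ k, ∃ δ : 𝕜, δ ≠ 0 ∧ ‖δ • (g (s (N + k)) - g x₀)‖ < 1 ∧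
        1 / ‖c‖ ≤ ‖δ • (g (s (N + k)) - g x₀)‖ := by
      intro k
      obtain ⟨δ, h1, h2, h3, -⟩ := rescale_to_shell hc (one_pos) (hyne (N + k) (by omega))
      exact ⟨δ, h1, h2, h3⟩
    choose δ hδ0 hδ1 hδ2 using hsh
    obtain ⟨U, -, ψ, hψ, hU⟩ := (isCompact_closedBall (0 : E) 1).tendsto_subseq
      (x := fun k => δ k • (g (s (N + k)) - g x₀)) (fun k => by
        rw [mem_closedBall_zero_iff]; exact (hδ1 k).le)
    have hc0 : 0 < ‖c‖ := by linarith
    have hUn : 1 / ‖c‖ ≤ ‖U‖ := ge_of_tendsto' hU.norm fun k => hδ2 (ψ k)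
    have hU0 : U ≠ 0 := by
      intro h
      rw [h, norm_zero] at hUn
      have : 0 < 1 / ‖c‖ := by positivity
      linarith
    have hsh' : Tendsto (fun k => N + ψ k) atTop atTop :=
      tendsto_atTop_mono (fun k => Nat.le_add_left _ _) hψ.tendsto_atTop
    apply hU0
    refine hinj U ⟨fun k => s (N + ψ k), hs.comp hsh', fun k => (δ (ψ k))⁻¹,
      fun k => inv_ne_zero (hδ0 _), ?_, ?_⟩ ?_
    · rw [tendsto_zero_iff_norm_tendsto_zero]
      have h1 : Tendsto (fun k => ‖c‖ * ‖g (s (N + ψ k)) - g x₀‖) atTop (𝓝 (‖c‖ * 0)) := by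
        refine Tendsto.const_mul _ ?_
        have := (hx.comp hsh').norm
        rw [norm_zero] at this
        exact this
      rw [mul_zero] at h1
      refine squeeze_zero (fun k => norm_nonneg _) (fun k => ?_) h1
      have h2 := hδ2 (ψ k)
      rw [norm_smul] at h2
      have h3 : 0 < ‖δ (ψ k)‖ := norm_pos_iff.2 (hδ0 _)
      rw [norm_inv, inv_le_iff_one_le_mul₀ h3]
      rw [div_le_iff₀ hc0] at h2
      linarith
    · refine hU.congr fun k => ?_
      simp only [Function.comp_apply, inv_inv]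
    · have h1 : Tendsto (fun k => π (δ (ψ k) • (g (s (N + ψ k)) - g x₀))) atTop (𝓝 (π U)) :=
        (π.continuous.tendsto U).comp hU
      have h2 : ∀ k, π (δ (ψ k) • (g (s (N + ψ k)) - g x₀)) =
          (δ (ψ k) * t (N + ψ k)) • π (y (N + ψ k)) := by
        intro k
        rw [map_smul, mul_smul, hπy, smul_smul (t _), mul_inv_cancel₀ (ht0 _), one_smul, map_sub]
      have h3 : Tendsto (fun k => δ (ψ k) * t (N + ψ k)) atTop (𝓝 0) := by
        rw [tendsto_zero_iff_norm_tendsto_zero]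
        have h4 : Tendsto (fun k => ‖y (N + ψ k)‖⁻¹) atTop (𝓝 0) :=
          tendsto_inv_atTop_zero.comp (hinf.comp hsh')
        refine squeeze_zero (fun k => norm_nonneg _) (fun k => ?_) h4
        have h5 := (hδ1 (ψ k)).le
        have h6 : g (s (N + ψ k)) - g x₀ = t (N + ψ k) • y (N + ψ k) := by
          rw [hy]
          simp only [smul_smul, mul_inv_cancel₀ (ht0 _), one_smul]
        rw [h6, smul_smul, norm_smul] at h5
        have h7 : 0 < ‖y (N + ψ k)‖ := by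
          have := hN (N + ψ k) (by omega)
          linarith
        rw [← one_div, le_div_iff₀ h7]
        exact h5
      have h8 := h3.smul (hlim'.comp hsh')
      rw [zero_smul] at h8
      exact tendsto_nhds_unique h1 (h8.congr fun k => (h2 k).symm)

end

end Pool.Agent.K4H28.MT
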