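import Pool.Agent.K4H28.MT.Lam
import Pool.Agent.K4H28.MT.Cpt

/-!
# The Mumford-Tate Lie algebra of the cohomology
-/

set_option autoImplicit false

namespace Pool.Agent.K4H28.MT

open Module NumberField IsDedekindDomain Filter Topology
open Pool.Agent.W401.Cheb Pool.Agent.N184.HK
open scoped Matrix

variable {ℓ : ℕ} [Fact ℓ.Prime] {K : Type} [Field K] [NumberField K] {Ω : Type} [Field Ω]
  [CharZero Ω] [TopologicalSpace Ω] [Algebra ℚ_[ℓ] Ω] {κ T : Type} {m : κ → ℕ}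
  {X : T → HKVariety K Ω} (B : ∀ j, Betti ℓ (X j))

/-- The projection to `N` and the `H²(X_j)`. -/
def prj {F : Type} (Y : Blk (sizeAll m B) F) : Blk (size₂ m B) F :=
  join₂ B (fun k => Y (.inl k)) fun j => Y (.inr ⟨j, ⟨2, Nat.lt_succ_of_le (X j).two_le⟩⟩)

/-- The component of `H²(X_j)`. -/
def at₂ {F : Type} (Y : Blk (size₂ m B) F) (j : T) :
    Matrix (Fin ((B j).b 2)) (Fin ((B j).b 2)) F := Y (.inr j)

theorem lam_add (j : T) (i : ℕ) (Y Z : Matrix (Fin ((B j).b 2)) (Fin ((B j).b 2)) ℚ) :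
    (B j).lam ℚ i (Y + Z) = (B j).lam ℚ i Y + (B j).lam ℚ i Z := by
  simp only [Betti.lam]
  rw [Matrix.trace_add, extL_self, extL_self, extL_self,
        add_div, add_smul, add_sub_add_comm, map_add, mul_add, add_smul]
  abel

theorem lam_smul (j : T) (i : ℕ) (r : ℚ) (Y : Matrix (Fin ((B j).b 2)) (Fin ((B j).b 2)) ℚ) :
    (B j).lam ℚ i (r • Y) = r • (B j).lam ℚ i Y := by
  simp only [Betti.lam]
  rw [Matrix.trace_smul, extL_self, extL_self, smul_add, ← map_smul, smul_sub, smul_smul,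
    smul_smul, smul_eq_mul]
  congr 2
  · congr 2
    ring
  · ring

/-- The Lie algebra of the matrices which are in `so(H²(X_j)) ⊕ ℚ` for all `j`. -/
def gso : Submodule ℚ (Blk (size₂ m B) ℚ) where
  carrier := {Y | ∀ j, ∃ c : ℚ, (at₂ B Y j)ᵀ * (B j).Q + (B j).Q * at₂ B Y j = (2 * c) • (B j).Q}
  add_mem' := by
    intro Y Z hY hZ j
    obtain ⟨a, ha⟩ := hY j
    obtain ⟨c, hc⟩ := hZ j
    refine ⟨a + c, ?_⟩
    have h1 : at₂ B (Y + Z) j = at₂ B Y j + at₂ B Z j := rfl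
    rw [h1, Matrix.transpose_add, add_mul, mul_add, mul_add 2 a c, add_smul, ← ha, ← hc]
    abel
  zero_mem' := by
    intro j
    refine ⟨0, ?_⟩
    have h1 : at₂ B (0 : Blk (size₂ m B) ℚ) j = 0 := rfl
    rw [h1, Matrix.transpose_zero, zero_mul, mul_zero, mul_zero, zero_smul, add_zero]
  smul_mem' := by
    intro r Y hY j
    obtain ⟨a, ha⟩ := hY j
    refine ⟨r * a, ?_⟩
    have h1 : at₂ B (r • Y) j = r • at₂ B Y j := rfl
    rw [h1, Matrix.transpose_smul, smul_mul_assoc, mul_smul_comm, ← smul_add, ha,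
      smul_smul]
    congr 1
    ring

theorem gso_lie : IsLie (gso (m := m) B) := by
  intro Y hY Z hZ j
  obtain ⟨a, ha⟩ := hY j
  obtain ⟨c, hc⟩ := hZ j
  exact ⟨0, br_gso (B j) ha hc⟩

/-- The linear map `lamAll`. -/
noncomputable def lamLin : Blk (size₂ m B) ℚ →ₗ[ℚ] Blk (sizeAll m B) ℚ where
  toFun := lamAll B ℚ
  map_add' Y Z := by
    funext x
    rcases x with k | x
    · rfl
    · exact lam_add B x.1 x.2 (at₂ B Y x.1) (at₂ B Z x.1)
  map_smul' r Y := by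
    funext x
    rcases x with k | x
    · rfl
    · exact lam_smul B x.1 x.2 r (at₂ B Y x.1)

theorem lamLin_apply (Y : Blk (size₂ m B) ℚ) : lamLin B Y = lamAll B ℚ Y := rfl

theorem lam_lie {𝔞 : Submodule ℚ (Blk (size₂ m B) ℚ)} (h𝔞 : IsLie 𝔞) (hg : 𝔞 ≤ gso B) :
    IsLie (𝔞.map (lamLin B)) := by
  rintro _ ⟨Y, hY, rfl⟩ _ ⟨Z, hZ, rfl⟩
  refine ⟨Y * Z - Z * Y, h𝔞 Y hY Z hZ, ?_⟩
  funext x
  rcases x with k | x
  · rfl
  · obtain ⟨a, ha⟩ := hg hY x.1
    obtain ⟨c, hc⟩ := hg hZ x.1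
    exact lam_br (B x.1) (Nat.lt_succ_iff.1 x.2.2) ha hc

theorem prj_lam {Y : Blk (size₂ m B) ℚ} (hY : Y ∈ gso B) : prj B (lamAll B ℚ Y) = Y := by
  funext x
  rcases x with k | j
  · rfl
  · obtain ⟨a, ha⟩ := hY j
    exact lam_two (B j) ha

/-- The linear map `prj`. -/
def prjLin : Blk (sizeAll m B) ℚ →ₗ[ℚ] Blk (size₂ m B) ℚ where
  toFun := prj B
  map_add' Y Z := by
    funext x
    rcases x with k | j <;> rfl
  map_smul' r Y := by
    funext x
    rcases x with k | j <;> rfl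

theorem prj_lie {𝔞 : Submodule ℚ (Blk (sizeAll m B) ℚ)} (h𝔞 : IsLie 𝔞) :
    IsLie (𝔞.map (prjLin B)) := by
  rintro _ ⟨Y, hY, rfl⟩ _ ⟨Z, hZ, rfl⟩
  refine ⟨Y * Z - Z * Y, h𝔞 Y hY Z hZ, ?_⟩
  funext x
  rcases x with k | j <;> rfl

theorem map_lamAll {F : Type} [Field F] [Algebra ℚ F] (p : F →ₗ[ℚ] ℚ)
    (Y : Blk (size₂ m B) F) : Blk.map p (lamAll B F Y) = lamAll B ℚ (Blk.map p Y) := by
  funext x
  rcases x with k | x
  · rfl
  · exact lam_map (B x.1) p x.2 _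

theorem map_prj {F : Type} [Field F] [Algebra ℚ F] (p : F →ₗ[ℚ] ℚ)
    (Y : Blk (sizeAll m B) F) : Blk.map p (prj B Y) = prj B (Blk.map p Y) := by
  funext x
  rcases x with k | j <;> rfl

theorem map_J (j : T) (p : ℂ →ₗ[ℚ] ℚ) :
    ((B j).J.map p)ᵀ * (B j).Q + (B j).Q * (B j).J.map p = 0 := by
  rw [← map_form, (B j).J_skew]
  ext a b
  exact map_zero p

theorem hodge_two (j : T) : (B j).hodge 2 = (B j).J + 1 := by
  rw [Betti.hodge]
  have h1 : extL ℂ ((B j).R 2) (B j).J = (B j).J := by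
    refine sepM fun p => ?_
    rw [extL_map, (B j).R_two (map_J B j p)]
  rw [h1]
  congr 1
  have : (((2 : ℕ) : ℂ) / 2) = 1 := by norm_num
  rw [this, one_smul]

theorem tr_J (j : T) : (B j).J.trace = 0 := by
  refine sep fun p => ?_
  rw [← map_trace, map_zero]
  have h1 := tr_skew (B j).det_ne (c := 0) (by rw [map_J B j p]; simp)
  rw [h1, zero_mul]

theorem lam_hodge (j : T) (i : ℕ) : (B j).lam ℂ i ((B j).hodge 2) = (B j).hodge i := by
  have hb : ((B j).b 2 : ℂ) ≠ 0 := by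
    have := (B j).three
    exact_mod_cast (by omega : (B j).b 2 ≠ 0)
  rw [hodge_two, Betti.lam, Matrix.trace_add, tr_J, Matrix.trace_one, Fintype.card_fin, zero_add,
    div_self hb, one_smul, add_sub_cancel_right, mul_one, Betti.hodge]

theorem lamAll_hodge (hN : Blk m ℂ) : lamAll B ℂ (hodge₂ B hN) = hodgeAll B hN := by
  funext x
  rcases x with k | x
  · rfl
  · exact lam_hodge B x.1 x.2

theorem prj_hodge (hN : Blk m ℂ) : prj B (hodgeAll B hN) = hodge₂ B hN := by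
  funext x
  rcases x with k | j <;> rfl

variable [Finite κ] [Finite T]

theorem hodge_gso (hN : Blk m ℂ) : hodge₂ B hN ∈ scal ℂ (gso B) := by
  rw [scal_iff]
  intro p j
  refine ⟨p 1, ?_⟩
  change (((B j).hodge 2).map p)ᵀ * (B j).Q + (B j).Q * ((B j).hodge 2).map p = _
  have h1 : ((B j).hodge 2).map p = (B j).J.map p + p 1 • 1 := by
    have h2 := map_one' (n := (B j).b 2) p (1 : ℂ)
    rw [one_smul] at h2
    rw [hodge_two, map_add', h2]
  have h3 := map_J B j p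
  rw [h1, Matrix.transpose_add, Matrix.transpose_smul, Matrix.transpose_one, add_mul, mul_add,
    smul_mul_assoc, mul_smul_comm, one_mul, mul_one]
  rw [add_add_add_comm, h3, zero_add, two_mul, add_smul]

theorem lieMT_gso (hN : Blk m ℂ) : lieMT (hodge₂ B hN) ≤ gso B :=
  lieMT_le (gso_lie B) (hodge_gso B hN)

/-- The Mumford-Tate Lie algebra of the whole cohomology. -/
theorem lieMT_all (hN : Blk m ℂ) :
    lieMT (hodgeAll B hN) = (lieMT (hodge₂ B hN)).map (lamLin B) := by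
  obtain ⟨h1, h2⟩ := lieMT_spec (hodge₂ B hN)
  obtain ⟨h3, h4⟩ := lieMT_spec (hodgeAll B hN)
  have hle : lieMT (hodgeAll B hN) ≤ (lieMT (hodge₂ B hN)).map (lamLin B) := by
    refine lieMT_le (lam_lie B h1 (lieMT_gso B hN)) ?_
    rw [scal_iff]
    intro p
    rw [← lamAll_hodge, map_lamAll]
    exact ⟨_, mem_of_scal h2 p, rfl⟩
  refine le_antisymm hle ?_
  have h5 : lieMT (hodge₂ B hN) ≤ (lieMT (hodgeAll B hN)).map (prjLin B) := by
    refine lieMT_le (prj_lie B h3) ?_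
    rw [scal_iff]
    intro p
    rw [← prj_hodge, map_prj]
    exact ⟨_, mem_of_scal h4 p, rfl⟩
  rintro _ ⟨Y, hY, rfl⟩
  obtain ⟨Z, hZ, hZY⟩ := h5 hY
  obtain ⟨Y', hY', rfl⟩ := hle hZ
  have h6 : prj B (lamAll B ℚ Y') = Y' := prj_lam B (lieMT_gso B hN hY')
  have h7 : Y' = Y := by
    rw [← h6]
    exact hZY
  rw [← h7]
  exact hZ

/-- Extension of scalars of the Mumford-Tate Lie algebra. -/
theorem scal_all {F : Type} [Field F] [Algebra ℚ F] (hN : Blk m ℂ) (Y : Blk (sizeAll m B) F) :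
    Y ∈ scal F (lieMT (hodgeAll B hN)) ↔
      prj B Y ∈ scal F (lieMT (hodge₂ B hN)) ∧ Y = lamAll B F (prj B Y) := by
  rw [lieMT_all, scal_iff, scal_iff]
  constructor
  · intro h
    have h1 : ∀ p : F →ₗ[ℚ] ℚ, Blk.map p (prj B Y) ∈ lieMT (hodge₂ B hN) ∧
        Blk.map p Y = lamAll B ℚ (Blk.map p (prj B Y)) := by
      intro p
      obtain ⟨Z, hZ, hZY⟩ := h p
      rw [map_prj, ← hZY, lamLin_apply, prj_lam B (lieMT_gso B hN hZ)]
      exact ⟨hZ, rfl⟩
    refine ⟨fun p => (h1 p).1, ?_⟩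
    funext x
    refine sepM fun p => ?_
    have h2 := (h1 p).2
    rw [← map_lamAll] at h2
    exact congrFun h2 x
  · rintro ⟨h1, h2⟩ p
    rw [h2, map_lamAll]
    exact ⟨_, h1 p, rfl⟩

end Pool.Agent.K4H28.MT
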