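import Pool.Agent.K4H28.MT.Gal
import Pool.Agent.K4H28.CF.NoU

/-!
# The Mumford-Tate conjecture for hyperkähler varieties: the final form
-/

set_option autoImplicit false
set_option linter.unusedSectionVars false

namespace Pool.Agent.K4H28.MT

open Module NumberField IsDedekindDomain Filter Topology
open Pool.Agent.W401.Cheb Pool.Agent.N184.HK

section

variable {K : Type} [Field K] [NumberField K] {Ω : Type} [Field Ω] [CharZero Ω] [IsAlgClosed Ω]
  [TopologicalSpace Ω] [IsTopologicalRing Ω] [T2Space Ω] (X : HKVariety K Ω)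

/-- An open subgroup acts on `H^i` by operators which commute with all operators commuting with
`so(H²)`. -/
theorem open_commute (hPU : PotUnr X) {i : ℕ} (hi : i ≤ X.d) : OpenCommutes X i := by
  obtain ⟨U, hU, h⟩ := cen_trivial X hPU (Pool.Agent.K4H28.CF.noUnr K Ω) hi
  refine ⟨U, hU, fun σ hσ a ha => ?_⟩
  have h2 := h σ hσ a ha
  refine LinearMap.ext fun x => ?_
  have h3 := adE_apply ((X.E.F σ).φ i) a x
  rw [h2] at h3
  exact h3.symm

end

section

variable {ℓ : ℕ} [Fact ℓ.Prime] {K : Type} [Field K] [NumberField K] {Ω : Type} [Field Ω]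
  [CharZero Ω] [IsAlgClosed Ω] [TopologicalSpace Ω] [IsTopologicalRing Ω] [T2Space Ω]
  [Algebra ℚ_[ℓ] Ω] [ContinuousSMul ℚ_[ℓ] Ω] {κ T : Type} [Finite κ] [Finite T] {m : κ → ℕ}
  {X : T → HKVariety K Ω} (B : ∀ j, Betti ℓ (X j)) {gN : GK K → Blk m ℚ_[ℓ]}

include B in
theorem commute_all (j : T) {i : ℕ} (hi : i ≤ (X j).d) : OpenCommutes (X j) i :=
  open_commute (X j) (B j).pot hi

theorem tangent_iff (hN : IsCts gN) :
    LieImage (repAll B gN) (rep₂ B gN) (lamAll B ℚ_[ℓ]) := by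
  obtain ⟨hN, hN1⟩ := hN
  intro Y
  have h1 := fun Y => tangent_all B (fun j => (B j).pot) (Pool.Agent.K4H28.CF.noUnr K Ω) hN hN1
    (Y := Y)
  constructor
  · intro h
    exact ⟨_, (h1 Y).1 h⟩
  · rintro ⟨Z, hZ, rfl⟩
    obtain ⟨Y, hY, h3⟩ := tangent_lift B (fun j => (B j).pot) (Pool.Agent.K4H28.CF.noUnr K Ω)
      hN hN1 hZ
    have h4 := (h1 Y).1 hY
    rw [h3] at h4
    rw [← h4.2]
    exact hY

theorem lie_iff (hN : Blk m ℂ) : LieHodge (hodgeAll B hN) (hodge₂ B hN) (lamAll B ℚ) := by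
  intro Y
  rw [lieMT_all, Submodule.mem_map]
  exact ⟨fun ⟨Z, hZ, h⟩ => ⟨Z, hZ, h.symm⟩, fun ⟨Z, hZ, h⟩ => ⟨Z, hZ, h.symm⟩⟩

theorem mt_all (hN : IsCts gN) (h : Blk m ℂ) :
    MTConj (repAll B gN) (hodgeAll B h) ↔ MTConj (rep₂ B gN) (hodge₂ B h) :=
  mt_iff B (fun j => (B j).pot) (Pool.Agent.K4H28.CF.noUnr K Ω) hN.1 hN.2 h

end

end Pool.Agent.K4H28.MT
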