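import Pool.Agent.K4H28.MT.Asm

/-!
# The Lie algebra of the `ℓ`-adic image
-/

set_option autoImplicit false

namespace Pool.Agent.K4H28.MT

open Module NumberField IsDedekindDomain Filter Topology
open Pool.Agent.W401.Cheb Pool.Agent.N184.HK
open scoped Matrix

section ext

theorem mapM_inj {F G : Type} [Field F] [Field G] (φ : F →+* G) {n : ℕ}
    {A C : Matrix (Fin n) (Fin n) F} (h : A.map φ = C.map φ) : A = C := by
  ext i j
  exact φ.injective (congrArg (fun M => M i j) h)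

theorem extL_hom {F G : Type} [Field F] [Field G] [Algebra ℚ F] [Algebra ℚ G] (φ : F →+* G)
    {m n : ℕ} (L : Matrix (Fin m) (Fin m) ℚ →ₗ[ℚ] Matrix (Fin n) (Fin n) ℚ)
    (A : Matrix (Fin m) (Fin m) F) : (extL F L A).map φ = extL G L (A.map φ) := by
  ext i j
  change φ ((∑ a, ∑ b, A a b • (L (Matrix.single a b 1)).map (algebraMap ℚ F)) i j) =
    (∑ a, ∑ b, (A.map φ) a b • (L (Matrix.single a b 1)).map (algebraMap ℚ G)) i j
  rw [Matrix.sum_apply, Matrix.sum_apply, map_sum]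
  refine Finset.sum_congr rfl fun a _ => ?_
  rw [Matrix.sum_apply, Matrix.sum_apply, map_sum]
  refine Finset.sum_congr rfl fun b _ => ?_
  rw [Matrix.smul_apply, Matrix.map_apply, Matrix.map_apply, Matrix.smul_apply, smul_eq_mul,
    smul_eq_mul, map_mul, Matrix.map_apply]
  congr 1
  exact congrArg (fun f : ℚ →+* G => f _) (Subsingleton.elim (φ.comp (algebraMap ℚ F))
    (algebraMap ℚ G))

end ext

variable {ℓ : ℕ} [Fact ℓ.Prime] {K : Type} [Field K] [NumberField K] {Ω : Type} [Field Ω]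
  [CharZero Ω] [TopologicalSpace Ω] [Algebra ℚ_[ℓ] Ω]

section one

variable {X : HKVariety K Ω} (B : Betti ℓ X)

theorem g_one {i : ℕ} (hi : i ≤ X.d) : B.g 1 i = 1 := by
  apply mapM_inj (algebraMap ℚ_[ℓ] Ω)
  rw [← B.g_eq i hi, Matrix.map_one _ (map_zero _) (map_one _)]
  have h1 : X.E.Φ 1 i = 1 := by
    ext x
    exact phi_one X.E i x
  rw [h1, LinearMap.toMatrix_one]

theorem PP_ext {i : ℕ} (hi : i ≤ X.d) (A : Matrix (Fin (B.b 2)) (Fin (B.b 2)) Ω) :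
    PP X (B.e 2) (B.e i) A = extL Ω (B.R i) A := by
  conv_lhs => rw [Matrix.matrix_eq_sum_single A]
  rw [map_sum]
  change _ = ∑ a, ∑ b, A a b • (B.R i (Matrix.single a b 1)).map (algebraMap ℚ Ω)
  refine Finset.sum_congr rfl fun a _ => ?_
  rw [map_sum]
  refine Finset.sum_congr rfl fun b _ => ?_
  have h2 : Matrix.single a b (A a b) =
      A a b • (Matrix.single a b (1 : ℚ)).map (algebraMap ℚ Ω) := by
    ext i j
    rw [Matrix.smul_apply, Matrix.map_apply, Matrix.single_apply, Matrix.single_apply]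
    split
    · simp
    · simp
  rw [h2, map_smul, ← B.R_eq i hi]
  have h3 := PP_apply X (B.e 2) (B.e i)
    (Matrix.toLin (B.e 2) (B.e 2) ((Matrix.single a b (1 : ℚ)).map (algebraMap ℚ Ω)))
  rw [LinearMap.toMatrix_toLin] at h3
  rw [h3]

theorem lam_hom {i : ℕ} (Z : Matrix (Fin (B.b 2)) (Fin (B.b 2)) ℚ_[ℓ]) :
    (B.lam ℚ_[ℓ] i Z).map (algebraMap ℚ_[ℓ] Ω) = B.lam Ω i (Z.map (algebraMap ℚ_[ℓ] Ω)) := by
  have ht : (Z.map (algebraMap ℚ_[ℓ] Ω)).trace = algebraMap ℚ_[ℓ] Ω Z.trace := by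
    rw [Matrix.trace, Matrix.trace, map_sum]
    rfl
  have h1 : ∀ {n : ℕ} (c : ℚ_[ℓ]), (c • (1 : Matrix (Fin n) (Fin n) ℚ_[ℓ])).map
      (algebraMap ℚ_[ℓ] Ω) = algebraMap ℚ_[ℓ] Ω c • 1 := by
    intro n c
    ext i j
    rw [Matrix.map_apply, Matrix.smul_apply, Matrix.smul_apply, Matrix.one_apply, Matrix.one_apply]
    split <;> simp
  rw [Betti.lam, Betti.lam, Matrix.map_add _ (map_add _), extL_hom,
    Matrix.map_sub _ (map_sub _), h1, h1, ht]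
  congr 2
  · rw [map_div₀, map_natCast]
  · rw [map_mul, map_div₀, map_div₀, map_natCast, map_natCast, map_ofNat]

variable [IsAlgClosed Ω] [IsTopologicalRing Ω] [T2Space Ω] [ContinuousSMul ℚ_[ℓ] Ω]

theorem tendsto_mapM {n : ℕ} {f : ℕ → Matrix (Fin n) (Fin n) ℚ_[ℓ]}
    {Y : Matrix (Fin n) (Fin n) ℚ_[ℓ]} (h : Tendsto f atTop (𝓝 Y)) :
    Tendsto (fun k => (f k).map (algebraMap ℚ_[ℓ] Ω)) atTop (𝓝 (Y.map (algebraMap ℚ_[ℓ] Ω))) :=
  ((continuous_id.matrix_map (continuous_algebraMap ℚ_[ℓ] Ω)).tendsto Y).comp h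

/-- The component in `H^i` of a tangent vector. -/
theorem comp_lam (hPU : PotUnr X) (hcft : NoUnr K Ω) {i : ℕ} (hi : i ≤ X.d) {s : ℕ → GK K}
    (hs : Tendsto s atTop (𝓝 1)) {t : ℕ → ℚ_[ℓ]} (h0 : ∀ k, t k ≠ 0)
    (ht : Tendsto t atTop (𝓝 0)) {Z : Matrix (Fin (B.b 2)) (Fin (B.b 2)) ℚ_[ℓ]}
    (hZ : Tendsto (fun k => (t k)⁻¹ • (B.g (s k) 2 - 1)) atTop (𝓝 Z))
    {Y : Matrix (Fin (B.b i)) (Fin (B.b i)) ℚ_[ℓ]}
    (hY : Tendsto (fun k => (t k)⁻¹ • (B.g (s k) i - 1)) atTop (𝓝 Y)) :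
    Y = B.lam ℚ_[ℓ] i Z := by
  set φ := algebraMap ℚ_[ℓ] Ω with hφ
  have hc : Continuous φ := continuous_algebraMap ℚ_[ℓ] Ω
  have hτ : Tendsto (fun k => φ (t k)) atTop (𝓝 0) := by
    have := (hc.tendsto 0).comp ht
    rwa [map_zero] at this
  have key : ∀ {j : ℕ} (hj : j ≤ X.d) {W : Matrix (Fin (B.b j)) (Fin (B.b j)) ℚ_[ℓ]},
      Tendsto (fun k => (t k)⁻¹ • (B.g (s k) j - 1)) atTop (𝓝 W) →
      Tendsto (fun k => (φ (t k))⁻¹ • (LinearMap.toMatrix (B.e j) (B.e j) (X.E.Φ (s k) j) - 1))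
        atTop (𝓝 (W.map φ)) := by
    intro j hj W hW
    refine (tendsto_mapM hW).congr fun k => ?_
    rw [B.g_eq j hj]
    ext a b
    rw [← hφ, Matrix.map_apply, Matrix.smul_apply, Matrix.smul_apply, Matrix.sub_apply,
      Matrix.sub_apply, smul_eq_mul, smul_eq_mul, map_mul, map_inv₀, map_sub, Matrix.map_apply,
      Matrix.one_apply, Matrix.one_apply]
    split <;> simp
  obtain ⟨c, hc1, -, hc2⟩ := tangent_eq X (B.e 2) (B.e i) hPU hcft hi hs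
    (fun k => (map_ne_zero φ).2 (h0 k)) hτ (key X.two_le hZ) (key hi hY)
  apply mapM_inj φ
  have hb : (B.b 2 : Ω) ≠ 0 := by
    have := B.three
    exact_mod_cast (by omega : B.b 2 ≠ 0)
  have hc3 : (Z.map φ).trace / (B.b 2 : Ω) = c := by
    rw [← hc1, mul_div_cancel_right₀ _ hb]
  rw [lam_hom, Betti.lam, hc3, hc2, PP_ext B hi]

end one

section all

variable [IsAlgClosed Ω] [IsTopologicalRing Ω] [T2Space Ω] [ContinuousSMul ℚ_[ℓ] Ω]
  {κ T : Type} {m : κ → ℕ} {X : T → HKVariety K Ω} (B : ∀ j, Betti ℓ (X j))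

theorem tangent_prj {gN : GK K → Blk m ℚ_[ℓ]} {Y : Blk (sizeAll m B) ℚ_[ℓ]}
    (h : Tangent (repAll B gN) Y) : Tangent (rep₂ B gN) (prj B Y) := by
  obtain ⟨s, hs, t, h0, ht, hY⟩ := h
  refine ⟨s, hs, t, h0, ht, fun x => ?_⟩
  rcases x with k | j
  · exact hY (.inl k)
  · exact hY (.inr ⟨j, ⟨2, Nat.lt_succ_of_le (X j).two_le⟩⟩)

theorem tangent_lam (hPU : ∀ j, PotUnr (X j)) (hcft : NoUnr K Ω) {gN : GK K → Blk m ℚ_[ℓ]}
    {Y : Blk (sizeAll m B) ℚ_[ℓ]} (h : Tangent (repAll B gN) Y) :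
    Y = lamAll B ℚ_[ℓ] (prj B Y) := by
  obtain ⟨s, hs, t, h0, ht, hY⟩ := h
  funext x
  rcases x with k | x
  · rfl
  · exact comp_lam (B x.1) (hPU x.1) hcft (Nat.lt_succ_iff.1 x.2.2) hs h0 ht
      (hY (.inr ⟨x.1, ⟨2, Nat.lt_succ_of_le (X x.1).two_le⟩⟩)) (hY (.inr x))

theorem rep_one {gN : GK K → Blk m ℚ_[ℓ]} (hN1 : gN 1 = 1) : repAll B gN 1 = 1 := by
  funext x
  rcases x with k | x
  · exact congrFun hN1 k
  · exact g_one (B x.1) (Nat.lt_succ_iff.1 x.2.2)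

theorem rep_cts {gN : GK K → Blk m ℚ_[ℓ]} (hN : Continuous gN) : Continuous (repAll B gN) := by
  refine continuous_pi fun x => ?_
  rcases x with k | x
  · exact (continuous_pi_iff.1 hN) k
  · exact (B x.1).g_cont x.2 (Nat.lt_succ_iff.1 x.2.2)

theorem lamAll_zero : lamAll (m := m) B ℚ_[ℓ] 0 = 0 := by
  funext x
  rcases x with k | x
  · rfl
  · change (B x.1).lam ℚ_[ℓ] x.2 0 = 0
    rw [Betti.lam, Matrix.trace_zero, zero_div, zero_smul, sub_zero, map_zero, mul_zero,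
      zero_smul, add_zero]

omit [IsAlgClosed Ω] [IsTopologicalRing Ω] [T2Space Ω] [ContinuousSMul ℚ_[ℓ] Ω] [Field Ω]
  [CharZero Ω] [TopologicalSpace Ω] [Algebra ℚ_[ℓ] Ω] in
theorem blk_lift {Γ : Type} [One Γ] [TopologicalSpace Γ] {ι ι₂ : Type} [Finite ι] [Finite ι₂]
    {n : ι → ℕ} {n₂ : ι₂ → ℕ} {g : Γ → Blk n ℚ_[ℓ]} (hg : Continuous g) (h1 : g 1 = 1)
    (π : Blk n ℚ_[ℓ] →ₗ[ℚ_[ℓ]] Blk n₂ ℚ_[ℓ]) (hπ1 : π 1 = 1)
    (hinj : ∀ U, Tangent g U → π U = 0 → U = 0) {Z : Blk n₂ ℚ_[ℓ]}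
    (h : Tangent (fun σ => π (g σ)) Z) : ∃ Y, Tangent g Y ∧ π Y = Z := by
  cases nonempty_fintype ι
  cases nonempty_fintype ι₂
  let E := ∀ x, Fin (n x) → Fin (n x) → ℚ_[ℓ]
  let E₂ := ∀ x, Fin (n₂ x) → Fin (n₂ x) → ℚ_[ℓ]
  let π' : E →ₗ[ℚ_[ℓ]] E₂ := π
  let g' : Γ → E := g
  have hg' : Continuous g' := hg
  have hT : ∀ U : Blk n ℚ_[ℓ], TanAt ℚ_[ℓ] g' 1 (U : E) ↔ Tangent g U := by
    intro U
    constructor
    · rintro ⟨s, hs, t, h0, ht, hU⟩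
      refine ⟨s, hs, t, h0, ht, fun x => ?_⟩
      have h2 := (tendsto_pi_nhds.1 hU) x
      refine h2.congr fun k => ?_
      change (t k)⁻¹ • (g (s k) x - g 1 x) = _
      rw [h1]
      rfl
    · rintro ⟨s, hs, t, h0, ht, hU⟩
      refine ⟨s, hs, t, h0, ht, tendsto_pi_nhds.2 fun x => ?_⟩
      refine (hU x).congr fun k => ?_
      change _ = (t k)⁻¹ • (g (s k) x - g 1 x)
      rw [h1]
      rfl
  obtain ⟨s, hs, t, h0, ht, hZ⟩ := h
  obtain ⟨Y, hY, hYZ⟩ := tan_lift (𝕜 := ℚ_[ℓ]) (x₀ := (1 : Γ)) hg'.continuousAt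
    (LinearMap.toContinuousLinearMap π') (fun U hU hU0 => hinj U ((hT U).1 hU) hU0)
    (Y₀ := (Z : E₂)) ⟨s, hs, t, h0, ht, tendsto_pi_nhds.2 fun x => by
      refine (hZ x).congr fun k => ?_
      change _ = (t k)⁻¹ • (π (g (s k)) x - π (g 1) x)
      rw [h1, hπ1]
      rfl⟩
  exact ⟨Y, (hT Y).1 hY, hYZ⟩

/-- The linear map `prj` over `ℚ_ℓ`. -/
def prjL : Blk (sizeAll m B) ℚ_[ℓ] →ₗ[ℚ_[ℓ]] Blk (size₂ m B) ℚ_[ℓ] where
  toFun := prj B
  map_add' Y Z := by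
    funext x
    rcases x with k | j <;> rfl
  map_smul' r Y := by
    funext x
    rcases x with k | j <;> rfl

/-- Lifting of tangent vectors. -/
theorem tangent_lift [Finite κ] [Finite T] (hPU : ∀ j, PotUnr (X j)) (hcft : NoUnr K Ω)
    {gN : GK K → Blk m ℚ_[ℓ]} (hN : Continuous gN) (hN1 : gN 1 = 1)
    {Z : Blk (size₂ m B) ℚ_[ℓ]} (h : Tangent (rep₂ B gN) Z) :
    ∃ Y, Tangent (repAll B gN) Y ∧ prj B Y = Z := by
  refine blk_lift (rep_cts B hN) (rep_one B hN1) (prjL B) ?_ (fun U hU h0 => ?_) (Z := Z) ?_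
  · funext x
    rcases x with k | j <;> rfl
  · rw [tangent_lam B hPU hcft hU]
    change lamAll B ℚ_[ℓ] (prjL B U) = 0
    rw [h0, lamAll_zero]
  · have h1 : (fun σ => prjL B (repAll B gN σ)) = rep₂ B gN := by
      funext σ x
      rcases x with k | j <;> rfl
    rw [h1]
    exact h

/-- **The Lie algebra of the `ℓ`-adic image.** -/
theorem tangent_all [Finite κ] [Finite T] (hPU : ∀ j, PotUnr (X j)) (hcft : NoUnr K Ω)
    {gN : GK K → Blk m ℚ_[ℓ]} (hN : Continuous gN) (hN1 : gN 1 = 1)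
    (Y : Blk (sizeAll m B) ℚ_[ℓ]) :
    Tangent (repAll B gN) Y ↔ Tangent (rep₂ B gN) (prj B Y) ∧ Y = lamAll B ℚ_[ℓ] (prj B Y) := by
  constructor
  · intro h
    exact ⟨tangent_prj B h, tangent_lam B hPU hcft h⟩
  · rintro ⟨h1, h2⟩
    obtain ⟨Y', hY', h3⟩ := tangent_lift B hPU hcft hN hN1 h1
    have h4 := tangent_lam B hPU hcft hY'
    rw [h3, ← h2] at h4
    rw [← h4]
    exact hY'

/-- **The Mumford-Tate conjecture for the whole cohomology is equivalent to the Mumford-Tate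
conjecture for `H²`.** -/
theorem mt_iff [Finite κ] [Finite T] (hPU : ∀ j, PotUnr (X j)) (hcft : NoUnr K Ω)
    {gN : GK K → Blk m ℚ_[ℓ]} (hN : Continuous gN) (hN1 : gN 1 = 1) (h : Blk m ℂ) :
    MTConj (repAll B gN) (hodgeAll B h) ↔ MTConj (rep₂ B gN) (hodge₂ B h) := by
  have hpl : ∀ Z : Blk (size₂ m B) ℚ_[ℓ], Tangent (rep₂ B gN) Z ∨
      Z ∈ scal ℚ_[ℓ] (lieMT (hodge₂ B h)) → prj B (lamAll B ℚ_[ℓ] Z) = Z := by
    intro Z hZ
    rcases hZ with hZ | hZ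
    · obtain ⟨Y, hY, h3⟩ := tangent_lift B hPU hcft hN hN1 hZ
      have h4 := tangent_lam B hPU hcft hY
      rw [h3] at h4
      rw [← h4, h3]
    · funext x
      refine sepM fun p => ?_
      have h5 := lieMT_gso B h (mem_of_scal hZ p)
      have h6 := prj_lam B h5
      rw [← map_lamAll, ← map_prj] at h6
      exact congrFun h6 x
  constructor
  · intro hc Z
    have h1 := hc (lamAll B ℚ_[ℓ] Z)
    rw [tangent_all B hPU hcft hN hN1, scal_all] at h1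
    constructor
    · intro hZ
      have h2 := hpl Z (.inl hZ)
      rw [h2] at h1
      exact (h1.1 ⟨hZ, rfl⟩).1
    · intro hZ
      have h2 := hpl Z (.inr hZ)
      rw [h2] at h1
      exact (h1.2 ⟨hZ, rfl⟩).1
  · intro hc Y
    rw [tangent_all B hPU hcft hN hN1, scal_all, hc (prj B Y)]

end all

end Pool.Agent.K4H28.MT
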