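import Pool.Agent.K4H28.MT.Dfn

/-!
# Rational structures and Mumford-Tate Lie algebras
-/

set_option autoImplicit false

namespace Pool.Agent.K4H28.MT

open Module

section

variable {ι : Type} {n : ι → ℕ}

theorem Blk.map_apply {F G : Type} (p : F → G) (Y : Blk n F) (x : ι) (i j : Fin (n x)) :
    Blk.map p Y x i j = p (Y x i j) := rfl

theorem mem_of_scal {F : Type} [Field F] [Algebra ℚ F] {𝔞 : Submodule ℚ (Blk n ℚ)} {Y : Blk n F}
    (hY : Y ∈ scal F 𝔞) (p : F →ₗ[ℚ] ℚ) : Blk.map p Y ∈ 𝔞 := by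
  induction hY using Submodule.span_induction generalizing p with
  | mem Y hY =>
    obtain ⟨A, hA, rfl⟩ := hY
    have h1 : Blk.map p (Blk.map (algebraMap ℚ F) A) = p 1 • A := by
      funext x
      ext i j
      rw [Blk.map_apply, Blk.map_apply, Pi.smul_apply, Matrix.smul_apply,
        Algebra.algebraMap_eq_smul_one, map_smul, smul_eq_mul, smul_eq_mul, mul_comm]
    rw [h1]
    exact 𝔞.smul_mem _ hA
  | zero =>
    have h1 : Blk.map p (0 : Blk n F) = 0 := by
      funext x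
      ext i j
      exact map_zero p
    rw [h1]
    exact 𝔞.zero_mem
  | add Y Z _ _ hY hZ =>
    have h1 : Blk.map p (Y + Z) = Blk.map p Y + Blk.map p Z := by
      funext x
      ext i j
      exact map_add p _ _
    rw [h1]
    exact 𝔞.add_mem (hY p) (hZ p)
  | smul c Y _ hY => exact hY (p ∘ₗ LinearMap.mulLeft ℚ c)

theorem scal_of [Finite ι] {F : Type} [Field F] [Algebra ℚ F] {𝔞 : Submodule ℚ (Blk n ℚ)}
    {Y : Blk n F} (h : ∀ p : F →ₗ[ℚ] ℚ, Blk.map p Y ∈ 𝔞) : Y ∈ scal F 𝔞 := by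
  classical
  cases nonempty_fintype ι
  let B := Basis.ofVectorSpace ℚ F
  let s := Finset.univ.biUnion fun x => Finset.univ.biUnion fun i => Finset.univ.biUnion fun j =>
    (B.repr (Y x i j)).support
  have h1 : Y = ∑ k ∈ s, B k • Blk.map (algebraMap ℚ F) (Blk.map (B.coord k) Y) := by
    funext x
    ext i j
    rw [Finset.sum_apply, Matrix.sum_apply]
    have h2 : ∀ k, (B k • Blk.map (algebraMap ℚ F) (Blk.map (B.coord k) Y)) x i j =
        B.repr (Y x i j) k • B k := by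
      intro k
      rw [Pi.smul_apply, Matrix.smul_apply, Blk.map_apply, Blk.map_apply, Basis.coord_apply,
        smul_eq_mul, mul_comm, ← Algebra.smul_def]
    simp only [h2]
    have h3 := B.linearCombination_repr (Y x i j)
    rw [Finsupp.linearCombination_apply] at h3
    rw [Finsupp.sum_of_support_subset _ (s := s) _ _ (by simp)] at h3
    · exact h3.symm
    · intro k hk
      simp only [s, Finset.mem_biUnion, Finset.mem_univ, true_and]
      exact ⟨x, i, j, hk⟩
  rw [h1]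
  refine Submodule.sum_mem _ fun k _ => Submodule.smul_mem _ _ (Submodule.subset_span ⟨_, h _, rfl⟩)

theorem scal_iff [Finite ι] {F : Type} [Field F] [Algebra ℚ F] {𝔞 : Submodule ℚ (Blk n ℚ)}
    {Y : Blk n F} : Y ∈ scal F 𝔞 ↔ ∀ p : F →ₗ[ℚ] ℚ, Blk.map p Y ∈ 𝔞 :=
  ⟨mem_of_scal, scal_of⟩

/-- The Mumford-Tate Lie algebra exists. -/
theorem lieMT_spec [Finite ι] (h : Blk n ℂ) : IsLie (lieMT h) ∧ h ∈ scal ℂ (lieMT h) := by
  constructor
  · intro Y hY Z hZ
    rw [lieMT, Submodule.mem_sInf] at hY hZ ⊢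
    intro 𝔞 h𝔞
    exact h𝔞.1 _ (hY 𝔞 h𝔞) _ (hZ 𝔞 h𝔞)
  · rw [scal_iff]
    intro p
    rw [lieMT, Submodule.mem_sInf]
    intro 𝔞 h𝔞
    exact mem_of_scal h𝔞.2 p

theorem lieMT_le {h : Blk n ℂ} {𝔞 : Submodule ℚ (Blk n ℚ)} (h1 : IsLie 𝔞) (h2 : h ∈ scal ℂ 𝔞) :
    lieMT h ≤ 𝔞 :=
  sInf_le ⟨h1, h2⟩

end

section ext

variable {F : Type} [Field F] [Algebra ℚ F] {m n : ℕ}
  (L : Matrix (Fin m) (Fin m) ℚ →ₗ[ℚ] Matrix (Fin n) (Fin n) ℚ)

theorem extL_map (p : F →ₗ[ℚ] ℚ) (A : Matrix (Fin m) (Fin m) F) :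
    (extL F L A).map p = L (A.map p) := by
  have h1 : L (A.map p) = ∑ a, ∑ b, p (A a b) • L (Matrix.single a b 1) := by
    conv_lhs => rw [Matrix.matrix_eq_sum_single (A.map p)]
    rw [map_sum]
    refine Finset.sum_congr rfl fun a _ => ?_
    rw [map_sum]
    refine Finset.sum_congr rfl fun b _ => ?_
    have h2 : Matrix.single a b (A.map p a b) = p (A a b) • Matrix.single a b (1 : ℚ) := by
      rw [Matrix.smul_single, smul_eq_mul, mul_one, Matrix.map_apply]
    rw [h2, map_smul]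
  rw [h1]
  ext i j
  change p ((∑ a, ∑ b, A a b • (L (Matrix.single a b 1)).map (algebraMap ℚ F)) i j) = _
  rw [Matrix.sum_apply, Matrix.sum_apply, map_sum]
  refine Finset.sum_congr rfl fun a _ => ?_
  rw [Matrix.sum_apply, Matrix.sum_apply, map_sum]
  refine Finset.sum_congr rfl fun b _ => ?_
  rw [Matrix.smul_apply, Matrix.map_apply, Matrix.smul_apply, smul_eq_mul, mul_comm,
    ← Algebra.smul_def, map_smul, smul_eq_mul, smul_eq_mul, mul_comm]

theorem extL_rat (A : Matrix (Fin m) (Fin m) ℚ) :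
    extL F L (A.map (algebraMap ℚ F)) = (L A).map (algebraMap ℚ F) := by
  have h1 : L A = ∑ a, ∑ b, A a b • L (Matrix.single a b 1) := by
    conv_lhs => rw [Matrix.matrix_eq_sum_single A]
    rw [map_sum]
    refine Finset.sum_congr rfl fun a _ => ?_
    rw [map_sum]
    refine Finset.sum_congr rfl fun b _ => ?_
    have h2 : Matrix.single a b (A a b) = A a b • Matrix.single a b (1 : ℚ) := by
      rw [Matrix.smul_single, smul_eq_mul, mul_one]
    rw [h2, map_smul]
  rw [h1]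
  ext i j
  change (∑ a, ∑ b, (A.map (algebraMap ℚ F)) a b • (L (Matrix.single a b 1)).map
    (algebraMap ℚ F)) i j = _
  rw [Matrix.map_apply, Matrix.sum_apply, Matrix.sum_apply, map_sum]
  refine Finset.sum_congr rfl fun a _ => ?_
  rw [Matrix.sum_apply, Matrix.sum_apply, map_sum]
  refine Finset.sum_congr rfl fun b _ => ?_
  rw [Matrix.smul_apply, Matrix.map_apply, Matrix.map_apply, Matrix.smul_apply, smul_eq_mul,
    smul_eq_mul, map_mul]

end ext

end Pool.Agent.K4H28.MT
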