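import Pool.Agent.K4H28.MT.Lim
import Pool.Agent.K4H28.MT.Opn
import Pool.Agent.K4H28.MT.Wey

/-!
# Tangent vectors of the Galois action on the cohomology of a hyperkähler variety
-/

set_option autoImplicit false

namespace Pool.Agent.K4H28.MT

open Module Module.End Polynomial NumberField IsDedekindDomain Filter Topology
open Pool.Agent.W401.Cheb Pool.Agent.N184.HK
open scoped Matrix

section forms

variable {Ω V : Type} [Field Ω] [AddCommGroup V] [Module Ω V] {m : ℕ} (e : Basis (Fin m) Ω V)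
  (q : LinearMap.BilinForm Ω V)

theorem form_iff (f : Module.End Ω V) (ν : Ω) :
    (∀ x y, q (f x) y + q x (f y) = ν * q x y) ↔
      (LinearMap.toMatrix e e f)ᵀ * LinearMap.BilinForm.toMatrix e q +
        LinearMap.BilinForm.toMatrix e q * LinearMap.toMatrix e e f = ν • LinearMap.BilinForm.toMatrix e q := by
  rw [← LinearMap.BilinForm.toMatrix_compLeft, ← LinearMap.BilinForm.toMatrix_compRight,
    ← map_add, ← map_smul, (LinearMap.BilinForm.toMatrix e).injective.eq_iff]
  constructor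
  · intro h
    ext x y
    exact h x y
  · intro h x y
    exact congrArg (fun B : LinearMap.BilinForm Ω V => B x y) h

theorem skew_iff (f : Module.End Ω V) :
    Skew q f ↔ (LinearMap.toMatrix e e f)ᵀ * LinearMap.BilinForm.toMatrix e q +
        LinearMap.BilinForm.toMatrix e q * LinearMap.toMatrix e e f = 0 := by
  have h := form_iff e q f 0
  simp only [zero_mul, zero_smul] at h
  exact h

theorem sim_mat {f : V ≃ₗ[Ω] V} {μ : Ω} (h : Similar q f μ) :
    (LinearMap.toMatrix e e f.toLinearMap)ᵀ * LinearMap.BilinForm.toMatrix e q *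
      LinearMap.toMatrix e e f.toLinearMap = μ • LinearMap.BilinForm.toMatrix e q := by
  rw [← LinearMap.BilinForm.toMatrix_comp, ← map_smul,
    (LinearMap.BilinForm.toMatrix e).injective.eq_iff]
  ext x y
  exact h x y

end forms

section main

variable {K : Type} [Field K] [NumberField K] {Ω : Type} [Field Ω] [CharZero Ω] [IsAlgClosed Ω]
  [TopologicalSpace Ω] [IsTopologicalRing Ω] [T2Space Ω] (X : HKVariety K Ω)
  {m n i : ℕ} (e2 : Basis (Fin m) Ω (X.E.X.H 2)) (ei : Basis (Fin n) Ω (X.E.X.H i))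

/-- The action of matrices. -/
noncomputable def PP : Matrix (Fin m) (Fin m) Ω →ₗ[Ω] Matrix (Fin n) (Fin n) Ω :=
  (LinearMap.toMatrix ei ei).toLinearMap ∘ₗ X.E.X.ρ i ∘ₗ
    (LinearMap.toMatrix e2 e2).symm.toLinearMap

omit [CharZero Ω] [IsAlgClosed Ω] [IsTopologicalRing Ω] [T2Space Ω] in
theorem PP_apply (f : Module.End Ω (X.E.X.H 2)) :
    PP X e2 ei (LinearMap.toMatrix e2 e2 f) = LinearMap.toMatrix ei ei (X.E.X.ρ i f) := by
  rw [PP, LinearMap.comp_apply, LinearMap.comp_apply, LinearEquiv.coe_coe, LinearEquiv.coe_coe,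
    LinearEquiv.symm_apply_apply]

omit [CharZero Ω] [IsAlgClosed Ω] [IsTopologicalRing Ω] [T2Space Ω] in
theorem PP_equi (σ : GK K) (B : Matrix (Fin m) (Fin m) Ω) :
    LinearMap.toMatrix ei ei (X.E.Φ σ i) * PP X e2 ei (B * LinearMap.toMatrix e2 e2 (X.E.Φ σ 2)) =
      PP X e2 ei (LinearMap.toMatrix e2 e2 (X.E.Φ σ 2) * B) *
        LinearMap.toMatrix ei ei (X.E.Φ σ i) := by
  obtain ⟨f, rfl⟩ := (LinearMap.toMatrix e2 e2).surjective B
  rw [← LinearMap.toMatrix_mul, ← LinearMap.toMatrix_mul, PP_apply, PP_apply,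
    ← LinearMap.toMatrix_mul, ← LinearMap.toMatrix_mul]
  congr 1
  have h := (X.E.F σ).equi i (f * X.E.Φ σ 2)
  have h2 : ((X.E.F σ).φ 2).toLinearMap ∘ₗ (f * X.E.Φ σ 2) ∘ₗ
      ((X.E.F σ).φ 2).symm.toLinearMap = X.E.Φ σ 2 * f := by
    refine LinearMap.ext fun x => ?_
    change (X.E.F σ).φ 2 (f ((X.E.F σ).φ 2 (((X.E.F σ).φ 2).symm x))) = (X.E.F σ).φ 2 (f x)
    rw [LinearEquiv.apply_symm_apply]
  rw [h2] at h
  exact h

omit [CharZero Ω] [IsAlgClosed Ω] [IsTopologicalRing Ω] [T2Space Ω] in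
theorem ev_comm {U : Subgroup (GK K)} (hU : IsOpen (U : Set (GK K))) {s : ℕ → GK K}
    (hs : Tendsto s atTop (𝓝 1)) : ∀ᶠ k in atTop, s k ∈ U :=
  hs.eventually (hU.mem_nhds U.one_mem)

/-- **Tangent vectors of the Galois action** come from `H²`. -/
theorem tangent_eq (hPU : PotUnr X) (hcft : NoUnr K Ω) (hi : i ≤ X.d) {s : ℕ → GK K}
    (hs : Tendsto s atTop (𝓝 1)) {τ : ℕ → Ω} (h0 : ∀ k, τ k ≠ 0) (hτ : Tendsto τ atTop (𝓝 0))
    {Z : Matrix (Fin m) (Fin m) Ω}
    (hZ : Tendsto (fun k => (τ k)⁻¹ • (LinearMap.toMatrix e2 e2 (X.E.Φ (s k) 2) - 1)) atTop (𝓝 Z))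
    {Y : Matrix (Fin n) (Fin n) Ω}
    (hY : Tendsto (fun k => (τ k)⁻¹ • (LinearMap.toMatrix ei ei (X.E.Φ (s k) i) - 1)) atTop
      (𝓝 Y)) : ∃ c : Ω, c * m = Z.trace ∧
      Zᵀ * LinearMap.BilinForm.toMatrix e2 X.E.X.q + LinearMap.BilinForm.toMatrix e2 X.E.X.q * Z =
        (2 * c) • LinearMap.BilinForm.toMatrix e2 X.E.X.q ∧
      Y = PP X e2 ei (Z - c • 1) + ((i : Ω) / 2 * c) • 1 := by
  classical
  set Q := LinearMap.BilinForm.toMatrix e2 X.E.X.q with hQ
  have hdet : Q.det ≠ 0 :=
    (LinearMap.BilinForm.nondegenerate_iff_det_ne_zero e2).1 X.E.X.nondeg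
  have hm3 : 3 ≤ m := by
    have := X.E.X.dim3
    rwa [Module.finrank_eq_card_basis e2, Fintype.card_fin] at this
  have hQ0 : Q ≠ 0 := by
    intro h
    apply hdet
    rw [h]
    have : Nonempty (Fin m) := ⟨⟨0, by omega⟩⟩
    exact Matrix.det_zero
  obtain ⟨ν, hν, hZQ⟩ := deriv_form h0 hτ hQ0 (fun k => sim_mat e2 X.E.X.q
    (X.E.F (s k)).similar) hZ
  have hP := deriv_P h0 hτ (PP X e2 ei) (fun k B => PP_equi X e2 ei (s k) B) hZ hY
  have hc2 : (2 : Ω) * (ν / 2) = ν := by ring
  refine ⟨ν / 2, ?_, by rw [hc2]; exact hZQ, ?_⟩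
  · -- the trace
    have hQu : IsUnit Q.det := isUnit_iff_ne_zero.2 hdet
    have h1 := congrArg (fun A => (A * Q⁻¹).trace) hZQ
    simp only [add_mul, Matrix.trace_add, smul_mul_assoc, Matrix.mul_nonsing_inv Q hQu,
      Matrix.trace_smul, Matrix.trace_one, Fintype.card_fin] at h1
    rw [mul_assoc Zᵀ, Matrix.mul_nonsing_inv Q hQu, mul_one, Matrix.trace_transpose,
      Matrix.trace_mul_cycle, Matrix.nonsing_inv_mul Q hQu, one_mul, smul_eq_mul] at h1
    linear_combination -h1 / 2
  · obtain ⟨z2, rfl⟩ := (LinearMap.toMatrix e2 e2).surjective Z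
    obtain ⟨y, rfl⟩ := (LinearMap.toMatrix ei ei).surjective Y
    have hsk : Skew X.E.X.q (z2 - (ν / 2) • 1) := by
      rw [skew_iff e2, map_sub, map_smul, LinearMap.toMatrix_one, Matrix.transpose_sub,
        Matrix.transpose_smul, Matrix.transpose_one, sub_mul, mul_sub, smul_mul_assoc,
        mul_smul_comm, one_mul, mul_one, ← hQ]
      have h2 : (LinearMap.toMatrix e2 e2 z2)ᵀ * Q - (ν / 2) • Q +
          (Q * LinearMap.toMatrix e2 e2 z2 - (ν / 2) • Q) =
          ((LinearMap.toMatrix e2 e2 z2)ᵀ * Q + Q * LinearMap.toMatrix e2 e2 z2) - ν • Q := by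
        have h3 : ν • Q = (ν / 2) • Q + (ν / 2) • Q := by
          rw [← add_smul]; congr 1; ring
        rw [h3]; abel
      rw [h2, hZQ, sub_self]
    set S := z2 - (ν / 2) • (1 : Module.End Ω (X.E.X.H 2)) with hS
    set T : Module.End Ω (X.E.X.H i) := y - X.E.X.ρ i S - ((i : Ω) / 2 * (ν / 2)) • 1 with hT
    have hTcen : T ∈ cen X.E.X i := by
      intro A hA
      have h1 := hP (LinearMap.toMatrix e2 e2 A)
      rw [← LinearMap.toMatrix_mul, ← LinearMap.toMatrix_mul, ← map_sub, PP_apply, PP_apply,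
        ← LinearMap.toMatrix_mul, ← LinearMap.toMatrix_mul, ← map_sub,
        (LinearMap.toMatrix ei ei).injective.eq_iff] at h1
      have h2 := X.E.X.bracket i S A hsk hA
      have h3 : S * A - A * S = z2 * A - A * z2 := by
        rw [hS, sub_mul, mul_sub, smul_mul_assoc, mul_smul_comm, one_mul, mul_one]
        abel
      rw [h3, ← h1] at h2
      have h4 : Commute (X.E.X.ρ i A) (y - X.E.X.ρ i S) := by
        refine sub_eq_zero.1 ?_
        have h5 : X.E.X.ρ i A * (y - X.E.X.ρ i S) - (y - X.E.X.ρ i S) * X.E.X.ρ i A =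
            (X.E.X.ρ i S * X.E.X.ρ i A - X.E.X.ρ i A * X.E.X.ρ i S) -
            (y * X.E.X.ρ i A - X.E.X.ρ i A * y) := by
          rw [mul_sub, sub_mul]; abel
        rw [h5, h2, sub_self]
      exact h4.sub_right ((Commute.one_right _).smul_right _)
    obtain ⟨U, hU, hUt⟩ := cen_trivial X hPU hcft hi
    have hcomm : ∀ σ ∈ U, ∀ a ∈ cen X.E.X i, X.E.Φ σ i * a = a * X.E.Φ σ i := by
      intro σ hσ a ha
      refine LinearMap.ext fun x => ?_
      have h1 := adE_apply ((X.E.F σ).φ i) a x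
      rw [hUt σ hσ a ha] at h1
      exact h1.symm
    have hev := ev_comm hU hs
    have hcen : ∀ a ∈ cen X.E.X i, Commute T a := by
      intro a ha
      have h1 : Tendsto (fun k => ((τ k)⁻¹ • (LinearMap.toMatrix ei ei (X.E.Φ (s k) i) - 1)) *
          LinearMap.toMatrix ei ei a) atTop (𝓝 (LinearMap.toMatrix ei ei y *
            LinearMap.toMatrix ei ei a)) :=
        ((continuous_id.matrix_mul continuous_const).tendsto _).comp hY
      have h2 : Tendsto (fun k => LinearMap.toMatrix ei ei a *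
          ((τ k)⁻¹ • (LinearMap.toMatrix ei ei (X.E.Φ (s k) i) - 1))) atTop
          (𝓝 (LinearMap.toMatrix ei ei a * LinearMap.toMatrix ei ei y)) :=
        ((continuous_const.matrix_mul continuous_id).tendsto _).comp hY
      have h3 : ∀ᶠ k in atTop, ((τ k)⁻¹ • (LinearMap.toMatrix ei ei (X.E.Φ (s k) i) - 1)) *
          LinearMap.toMatrix ei ei a = LinearMap.toMatrix ei ei a *
          ((τ k)⁻¹ • (LinearMap.toMatrix ei ei (X.E.Φ (s k) i) - 1)) := by
        filter_upwards [hev] with k hk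
        rw [smul_mul_assoc, mul_smul_comm, sub_mul, mul_sub, one_mul, mul_one,
          ← LinearMap.toMatrix_mul, ← LinearMap.toMatrix_mul, hcomm _ hk a ha]
      have h4 := tendsto_nhds_unique (h1.congr' h3) h2
      rw [← LinearMap.toMatrix_mul, ← LinearMap.toMatrix_mul,
        (LinearMap.toMatrix ei ei).injective.eq_iff] at h4
      have h5 : Commute y a := h4
      exact (h5.sub_left (ha S hsk)).sub_left ((Commute.one_left _).smul_left _)
    have hTn : IsNilpotent T := by
      refine nil_of_roots fun x hx => ?_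
      obtain ⟨z, r, hr, hzz, hz, htz, htTz⟩ := proj_spec hx
      have hzcen : z ∈ cen X.E.X i := fun A hA => hz _ (hTcen A hA)
      have hcts : Cts fun σ : GK K => en ((X.E.F σ).φ i) * z + (1 - z) := by
        intro M
        have h1 := (t_cts Ω (X.E.X.H i) (GK K) _ (fun _ => z) (X.E.cont i)
          (fun M => continuous_const)).1 M
        simp only [map_add]
        exact h1.add continuous_const
      have hg : Continuous fun σ => LinearMap.det (en ((X.E.F σ).φ i) * z + (1 - z)) ^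
          (4 * expo2 X i r) - (X.E.F σ).μ ^ (i * r * expo2 X i r) :=
        ((t_cts Ω (X.E.X.H i) (GK K) _ _ hcts hcts).2.pow _).sub (X.E.cont_μ.pow _)
      have hz0 := dense_zero X hU hg (fun v hv hp σ hσ hfr =>
        sub_eq_zero.2 (good_det X hv hp hfr hi hzcen hzz (hcomm σ hσ z hzcen) htz))
      have hB : Tendsto (fun k => ((τ k)⁻¹ • (LinearMap.toMatrix ei ei (X.E.Φ (s k) i) - 1)) *
          LinearMap.toMatrix ei ei z) atTop (𝓝 (LinearMap.toMatrix ei ei y *
            LinearMap.toMatrix ei ei z)) :=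
        ((continuous_id.matrix_mul continuous_const).tendsto _).comp hY
      have l1 := tendsto_det_pow hB h0 hτ (4 * expo2 X i r)
      have l2 := tendsto_pow_sub (x := fun k => (X.E.F (s k)).μ)
        (y := fun k => (τ k)⁻¹ * ((X.E.F (s k)).μ - 1)) (fun k => by
          rw [← mul_assoc, mul_inv_cancel₀ (h0 k), one_mul, add_sub_cancel]) h0 hτ hν
        (i * r * expo2 X i r)
      have h7 : ∀ᶠ k in atTop, (τ k)⁻¹ * ((1 + τ k • (((τ k)⁻¹ •
          (LinearMap.toMatrix ei ei (X.E.Φ (s k) i) - 1)) *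
          LinearMap.toMatrix ei ei z)).det ^ (4 * expo2 X i r) - 1) =
          (τ k)⁻¹ * ((X.E.F (s k)).μ ^ (i * r * expo2 X i r) - 1) := by
        filter_upwards [hev] with k hk
        have h8 := sub_eq_zero.1 (hz0 (s k) hk)
        have h9 : (1 + τ k • (((τ k)⁻¹ • (LinearMap.toMatrix ei ei (X.E.Φ (s k) i) - 1)) *
            LinearMap.toMatrix ei ei z)) =
            LinearMap.toMatrix ei ei (X.E.Φ (s k) i * z + (1 - z)) := by
          rw [smul_mul_assoc, smul_smul, mul_inv_cancel₀ (h0 k), one_smul, map_add, map_sub,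
            LinearMap.toMatrix_one, LinearMap.toMatrix_mul, sub_mul, one_mul]
          abel
        rw [h9, LinearMap.det_toMatrix]
        rw [← h8]
        rfl
      have h10 := tendsto_nhds_unique (l1.congr' h7) l2
      have h11 : (LinearMap.toMatrix ei ei y * LinearMap.toMatrix ei ei z).trace =
          LinearMap.trace Ω _ (y * z) := by
        rw [← LinearMap.toMatrix_mul, ← LinearMap.trace_eq_matrix_trace]
      rw [h11] at h10
      have hE : ((expo2 X i r : ℕ) : Ω) ≠ 0 := Nat.cast_ne_zero.2 (expo2_pos X i r).ne'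
      have h12 : 4 * LinearMap.trace Ω _ (y * z) = i * r * ν := by
        refine mul_left_cancel₀ hE ?_
        push_cast at h10
        linear_combination h10
      have h13 : LinearMap.trace Ω _ (X.E.X.ρ i S * z) = 0 :=
        tr_rho_mul hsk (fun B hB => hzcen B hB)
      have h14 : x * r = 0 := by
        rw [← htTz, hT, sub_mul, sub_mul, map_sub, map_sub, h13, smul_mul_assoc, one_mul,
          map_smul, htz, smul_eq_mul]
        linear_combination h12 / 4
      rcases mul_eq_zero.1 h14 with h | h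
      · exact h
      · exfalso
        have : r = 0 := by exact_mod_cast h
        omega
    have hT0 := nil_center X.E.X hTcen hcen hTn
    rw [← sub_eq_zero]
    have h6 : LinearMap.toMatrix ei ei T = 0 := by rw [hT0, map_zero]
    have h15 : LinearMap.toMatrix e2 e2 S = LinearMap.toMatrix e2 e2 z2 - (ν / 2) • 1 := by
      rw [hS, map_sub, map_smul, LinearMap.toMatrix_one]
    have h16 : LinearMap.toMatrix ei ei T = LinearMap.toMatrix ei ei y -
        PP X e2 ei (LinearMap.toMatrix e2 e2 z2 - (ν / 2) • 1) - ((i : Ω) / 2 * (ν / 2)) • 1 := by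
      rw [hT, map_sub, map_sub, map_smul, LinearMap.toMatrix_one, ← PP_apply X e2 ei, h15]
    rw [← h6, h16]
    abel

end main

end Pool.Agent.K4H28.MT
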