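import Pool.Agent.K4H28.MT.Hdg
import Pool.Agent.K4H28.MT.Tan

/-!
# The map from `so(H²) ⊕ F` to the endomorphisms of the cohomology
-/

set_option autoImplicit false

namespace Pool.Agent.K4H28.MT

open Module NumberField IsDedekindDomain Filter Topology
open Pool.Agent.W401.Cheb Pool.Agent.N184.HK
open scoped Matrix

section gen

variable {F : Type} [Field F] [Algebra ℚ F]

theorem sep {x y : F} (h : ∀ p : F →ₗ[ℚ] ℚ, p x = p y) : x = y := by
  rw [← sub_eq_zero, ← Module.forall_dual_apply_eq_zero_iff ℚ]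
  intro p
  rw [map_sub, h p, sub_self]

theorem sepM {n : ℕ} {A B : Matrix (Fin n) (Fin n) F}
    (h : ∀ p : F →ₗ[ℚ] ℚ, A.map p = B.map p) : A = B := by
  ext i j
  exact sep fun p => congrArg (fun M => M i j) (h p)

theorem map_one' {n : ℕ} (p : F →ₗ[ℚ] ℚ) (c : F) :
    (c • (1 : Matrix (Fin n) (Fin n) F)).map p = p c • (1 : Matrix (Fin n) (Fin n) ℚ) := by
  ext i j
  rw [Matrix.map_apply, Matrix.smul_apply, Matrix.smul_apply, Matrix.one_apply, Matrix.one_apply]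
  split
  · simp
  · simp

theorem map_add' {n : ℕ} (p : F →ₗ[ℚ] ℚ) (A B : Matrix (Fin n) (Fin n) F) :
    (A + B).map p = A.map p + B.map p := by
  ext i j
  exact map_add p _ _

theorem map_sub' {n : ℕ} (p : F →ₗ[ℚ] ℚ) (A B : Matrix (Fin n) (Fin n) F) :
    (A - B).map p = A.map p - B.map p := by
  ext i j
  exact map_sub p _ _

theorem map_trace {n : ℕ} (p : F →ₗ[ℚ] ℚ) (A : Matrix (Fin n) (Fin n) F) :
    (A.map p).trace = p A.trace := by
  rw [Matrix.trace, Matrix.trace, map_sum]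
  rfl

theorem map_div_nat (p : F →ₗ[ℚ] ℚ) (x : F) (k : ℕ) : p (x / k) = p x / k := by
  have h1 : x / (k : F) = ((k : ℚ)⁻¹) • x := by
    rw [Algebra.smul_def, map_inv₀, map_natCast, div_eq_mul_inv, mul_comm]
  rw [h1, map_smul, smul_eq_mul, div_eq_mul_inv, mul_comm]

theorem map_ratmul (p : F →ₗ[ℚ] ℚ) (r : ℚ) (x : F) : p ((algebraMap ℚ F r) * x) = r * p x := by
  rw [← Algebra.smul_def, map_smul, smul_eq_mul]

/-- Skew matrices over `F` have skew rational parts. -/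
theorem map_form {n : ℕ} (p : F →ₗ[ℚ] ℚ) (Q : Matrix (Fin n) (Fin n) ℚ)
    (A : Matrix (Fin n) (Fin n) F) :
    (Aᵀ * Q.map (algebraMap ℚ F) + Q.map (algebraMap ℚ F) * A).map p =
      (A.map p)ᵀ * Q + Q * A.map p := by
  ext i j
  rw [Matrix.map_apply, Matrix.add_apply, Matrix.add_apply, map_add, Matrix.mul_apply,
    Matrix.mul_apply, Matrix.mul_apply, Matrix.mul_apply, map_sum, map_sum]
  congr 1
  · refine Finset.sum_congr rfl fun k _ => ?_
    rw [Matrix.map_apply, mul_comm, map_ratmul, Matrix.transpose_apply, Matrix.transpose_apply,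
      Matrix.map_apply, mul_comm]
  · refine Finset.sum_congr rfl fun k _ => ?_
    rw [Matrix.map_apply, map_ratmul, Matrix.map_apply]

theorem map_smulQ {n : ℕ} (p : F →ₗ[ℚ] ℚ) (Q : Matrix (Fin n) (Fin n) ℚ) (c : F) :
    (c • Q.map (algebraMap ℚ F)).map p = p c • Q := by
  ext i j
  rw [Matrix.map_apply, Matrix.smul_apply, Matrix.map_apply, smul_eq_mul, mul_comm, map_ratmul,
    Matrix.smul_apply, smul_eq_mul, mul_comm]

/-- The trace of a skew matrix. -/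
theorem tr_skew {n : ℕ} {Q : Matrix (Fin n) (Fin n) ℚ} (hQ : Q.det ≠ 0)
    {A : Matrix (Fin n) (Fin n) ℚ} {c : ℚ} (h : Aᵀ * Q + Q * A = (2 * c) • Q) :
    A.trace = c * n := by
  have hQu : IsUnit Q.det := isUnit_iff_ne_zero.2 hQ
  have h1 := congrArg (fun A => (A * Q⁻¹).trace) h
  simp only [add_mul, Matrix.trace_add, smul_mul_assoc, Matrix.mul_nonsing_inv Q hQu,
    Matrix.trace_smul, Matrix.trace_one, Fintype.card_fin] at h1
  rw [mul_assoc Aᵀ, Matrix.mul_nonsing_inv Q hQu, mul_one, Matrix.trace_transpose,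
    Matrix.trace_mul_cycle, Matrix.nonsing_inv_mul Q hQu, one_mul, smul_eq_mul] at h1
  linear_combination h1 / 2

end gen

section betti

variable {ℓ : ℕ} [Fact ℓ.Prime] {K : Type} [Field K] [NumberField K] {Ω : Type} [Field Ω]
  [CharZero Ω] [TopologicalSpace Ω] [Algebra ℚ_[ℓ] Ω] {X : HKVariety K Ω} (B : Betti ℓ X)

theorem Betti.three : 3 ≤ B.b 2 := by
  have := X.E.X.dim3
  rwa [Module.finrank_eq_card_basis (B.e 2), Fintype.card_fin] at this

theorem Betti.det_ne : B.Q.det ≠ 0 := by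
  intro h
  have h1 : (LinearMap.BilinForm.toMatrix (B.e 2) X.E.X.q).det ≠ 0 :=
    (LinearMap.BilinForm.nondegenerate_iff_det_ne_zero (B.e 2)).1 X.E.X.nondeg
  apply h1
  rw [B.Q_eq]
  have h2 := (algebraMap ℚ Ω).map_det B.Q
  rw [RingHom.mapMatrix_apply] at h2
  rw [← h2, h, map_zero]

theorem map_inj {n : ℕ} {A C : Matrix (Fin n) (Fin n) ℚ}
    (h : A.map (algebraMap ℚ Ω) = C.map (algebraMap ℚ Ω)) : A = C := by
  ext i j
  exact (algebraMap ℚ Ω).injective (congrArg (fun M => M i j) h)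

/-- Rational skew matrices. -/
theorem Betti.skew {A : Matrix (Fin (B.b 2)) (Fin (B.b 2)) ℚ} (hA : Aᵀ * B.Q + B.Q * A = 0) :
    Skew X.E.X.q (Matrix.toLin (B.e 2) (B.e 2) (A.map (algebraMap ℚ Ω))) := by
  rw [skew_iff (B.e 2), LinearMap.toMatrix_toLin, B.Q_eq]
  have h1 := congrArg (fun M : Matrix _ _ ℚ => M.map (algebraMap ℚ Ω)) hA
  simp only [Matrix.map_add _ (map_add (algebraMap ℚ Ω)), Matrix.map_mul,
    Matrix.map_zero _ (map_zero (algebraMap ℚ Ω))] at h1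
  exact h1

theorem Betti.R_two {A : Matrix (Fin (B.b 2)) (Fin (B.b 2)) ℚ} (h : Aᵀ * B.Q + B.Q * A = 0) : B.R 2 A = A := by
  have h1 := B.R_eq 2 X.two_le A
  rw [X.E.X.ρ_two _ (B.skew h), LinearMap.toMatrix_toLin] at h1
  exact (map_inj h1).symm

theorem Betti.R_br {i : ℕ} (hi : i ≤ X.d) {A C : Matrix (Fin (B.b 2)) (Fin (B.b 2)) ℚ}
    (hA : Aᵀ * B.Q + B.Q * A = 0) (hC : Cᵀ * B.Q + B.Q * C = 0) :
    B.R i (A * C - C * A) = B.R i A * B.R i C - B.R i C * B.R i A := by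
  apply map_inj (Ω := Ω)
  have h1 := X.E.X.bracket i _ _ (B.skew hA) (B.skew hC)
  have h2 := congrArg (LinearMap.toMatrix (B.e i) (B.e i)) h1
  rw [map_sub (LinearMap.toMatrix (B.e i) (B.e i)), LinearMap.toMatrix_mul, LinearMap.toMatrix_mul,
    B.R_eq i hi, B.R_eq i hi] at h2
  have h3 : Matrix.toLin (B.e 2) (B.e 2) (A.map (algebraMap ℚ Ω)) *
      Matrix.toLin (B.e 2) (B.e 2) (C.map (algebraMap ℚ Ω)) -
      Matrix.toLin (B.e 2) (B.e 2) (C.map (algebraMap ℚ Ω)) *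
      Matrix.toLin (B.e 2) (B.e 2) (A.map (algebraMap ℚ Ω)) =
      Matrix.toLin (B.e 2) (B.e 2) ((A * C - C * A).map (algebraMap ℚ Ω)) := by
    apply (LinearMap.toMatrix (B.e 2) (B.e 2)).injective
    rw [map_sub, LinearMap.toMatrix_mul, LinearMap.toMatrix_mul, LinearMap.toMatrix_toLin,
      LinearMap.toMatrix_toLin, LinearMap.toMatrix_toLin,
      Matrix.map_sub _ (map_sub (algebraMap ℚ Ω)), Matrix.map_mul, Matrix.map_mul]
  rw [h3, B.R_eq i hi] at h2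
  rw [h2, Matrix.map_sub _ (map_sub (algebraMap ℚ Ω)), Matrix.map_mul, Matrix.map_mul]

theorem extL_self {m n : ℕ} (L : Matrix (Fin m) (Fin m) ℚ →ₗ[ℚ] Matrix (Fin n) (Fin n) ℚ)
    (A : Matrix (Fin m) (Fin m) ℚ) : extL ℚ L A = L A :=
  extL_map L (LinearMap.id : ℚ →ₗ[ℚ] ℚ) A

theorem lam_map {F : Type} [Field F] [Algebra ℚ F] (p : F →ₗ[ℚ] ℚ) (i : ℕ)
    (Z : Matrix (Fin (B.b 2)) (Fin (B.b 2)) F) : (B.lam F i Z).map p = B.lam ℚ i (Z.map p) := by
  rw [Betti.lam, Betti.lam, map_add', extL_map, map_sub', map_one', map_one', extL_self, map_trace,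
    map_div_nat]
  congr 2
  have h1 : (i : F) / 2 = algebraMap ℚ F ((i : ℚ) / 2) := by
    rw [map_div₀, map_natCast, map_ofNat]
  rw [h1, map_ratmul, map_div_nat]

theorem lam_rat {F : Type} [Field F] [Algebra ℚ F] (i : ℕ)
    (Z : Matrix (Fin (B.b 2)) (Fin (B.b 2)) ℚ) :
    B.lam F i (Z.map (algebraMap ℚ F)) = (B.lam ℚ i Z).map (algebraMap ℚ F) := by
  refine sepM fun p => ?_
  rw [lam_map]
  have h1 : ∀ {n : ℕ} (A : Matrix (Fin n) (Fin n) ℚ), (A.map (algebraMap ℚ F)).map p = p 1 • A := by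
    intro n A
    ext i j
    rw [Matrix.map_apply, Matrix.map_apply, Matrix.smul_apply, Algebra.algebraMap_eq_smul_one,
      map_smul, smul_eq_mul, smul_eq_mul, mul_comm]
  rw [h1, h1, Betti.lam, Betti.lam, extL_self, extL_self, Matrix.trace_smul, smul_add, ← map_smul,
    smul_sub, smul_smul, smul_smul, smul_eq_mul]
  congr 2
  · congr 2
    ring
  · ring

theorem trace_br {n : ℕ} (Y Z : Matrix (Fin n) (Fin n) ℚ) : (Y * Z - Z * Y).trace = 0 := by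
  rw [Matrix.trace_sub, Matrix.trace_mul_comm, sub_self]

/-- `lam` for elements of `so(H²) ⊕ ℚ`. -/
theorem lam_gso {i : ℕ} {Z : Matrix (Fin (B.b 2)) (Fin (B.b 2)) ℚ} {c : ℚ}
    (h : Zᵀ * B.Q + B.Q * Z = (2 * c) • B.Q) :
    B.lam ℚ i Z = B.R i (Z - c • 1) + ((i : ℚ) / 2 * c) • 1 ∧
      (Z - c • 1)ᵀ * B.Q + B.Q * (Z - c • 1) = 0 := by
  have hb : (B.b 2 : ℚ) ≠ 0 := by
    have := B.three
    exact_mod_cast (by omega : B.b 2 ≠ 0)
  have h1 := tr_skew B.det_ne h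
  have h2 : Z.trace / (B.b 2) = c := by rw [h1, mul_div_cancel_right₀ _ hb]
  refine ⟨by rw [Betti.lam, extL_self, h2], ?_⟩
  rw [Matrix.transpose_sub, Matrix.transpose_smul, Matrix.transpose_one, sub_mul, mul_sub,
    smul_mul_assoc, mul_smul_comm, one_mul, mul_one]
  have h3 : Zᵀ * B.Q - c • B.Q + (B.Q * Z - c • B.Q) = (Zᵀ * B.Q + B.Q * Z) - (2 * c) • B.Q := by
    rw [two_mul, add_smul]; abel
  rw [h3, h, sub_self]

theorem lam_two {Z : Matrix (Fin (B.b 2)) (Fin (B.b 2)) ℚ} {c : ℚ}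
    (h : Zᵀ * B.Q + B.Q * Z = (2 * c) • B.Q) : B.lam ℚ 2 Z = Z := by
  obtain ⟨h1, h2⟩ := lam_gso B (i := 2) h
  rw [h1, B.R_two h2]
  have : (((2 : ℕ) : ℚ) / 2 * c) = c := by push_cast; ring
  rw [this]
  abel

theorem br_gso {Y Z : Matrix (Fin (B.b 2)) (Fin (B.b 2)) ℚ} {a c : ℚ}
    (hY : Yᵀ * B.Q + B.Q * Y = (2 * a) • B.Q) (hZ : Zᵀ * B.Q + B.Q * Z = (2 * c) • B.Q) :
    (Y * Z - Z * Y)ᵀ * B.Q + B.Q * (Y * Z - Z * Y) = (2 * (0 : ℚ)) • B.Q := by
  have h1 : Yᵀ * B.Q = (2 * a) • B.Q - B.Q * Y := by rw [← hY]; abel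
  have h2 : Zᵀ * B.Q = (2 * c) • B.Q - B.Q * Z := by rw [← hZ]; abel
  rw [Matrix.transpose_sub, Matrix.transpose_mul, Matrix.transpose_mul, sub_mul, mul_assoc,
    mul_assoc, h1, h2, mul_sub, mul_sub, mul_smul_comm, mul_smul_comm, ← mul_assoc, ← mul_assoc,
    h1, h2]
  simp only [sub_mul, smul_mul_assoc, smul_sub, mul_sub, smul_smul, mul_assoc]
  module

theorem lam_br {i : ℕ} (hi : i ≤ X.d) {Y Z : Matrix (Fin (B.b 2)) (Fin (B.b 2)) ℚ} {a c : ℚ}
    (hY : Yᵀ * B.Q + B.Q * Y = (2 * a) • B.Q) (hZ : Zᵀ * B.Q + B.Q * Z = (2 * c) • B.Q) :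
    B.lam ℚ i (Y * Z - Z * Y) = B.lam ℚ i Y * B.lam ℚ i Z - B.lam ℚ i Z * B.lam ℚ i Y := by
  obtain ⟨h1, h2⟩ := lam_gso B (i := i) hY
  obtain ⟨h3, h4⟩ := lam_gso B (i := i) hZ
  obtain ⟨h5, -⟩ := lam_gso B (i := i) (br_gso B hY hZ)
  have h6 : Y * Z - Z * Y - (0 : ℚ) • 1 =
      (Y - a • 1) * (Z - c • 1) - (Z - c • 1) * (Y - a • 1) := by
    simp only [sub_mul, mul_sub, smul_mul_assoc, mul_smul_comm, one_mul, mul_one, zero_smul]
    module
  rw [h5, h6, B.R_br hi h2 h4, h1, h3]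
  simp only [add_mul, mul_add, smul_mul_assoc, mul_smul_comm, one_mul, mul_one, mul_zero,
    zero_smul, add_zero]
  module

end betti

end Pool.Agent.K4H28.MT
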