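import Mathlib

/-!
# Derivatives of relations between matrices along sequences
-/

set_option autoImplicit false

namespace Pool.Agent.K4H28.MT

open Filter Topology Matrix

section conv

variable (Ω : Type) [CommRing Ω] [TopologicalSpace Ω] [IsTopologicalRing Ω]

/-- The ring of the convergent sequences. -/
def Conv : Subring (ℕ → Ω) where
  carrier := {f | ∃ a, Tendsto f atTop (𝓝 a)}
  mul_mem' := by
    rintro f g ⟨a, ha⟩ ⟨b, hb⟩
    exact ⟨a * b, ha.mul hb⟩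
  one_mem' := ⟨1, tendsto_const_nhds⟩
  add_mem' := by
    rintro f g ⟨a, ha⟩ ⟨b, hb⟩
    exact ⟨a + b, ha.add hb⟩
  zero_mem' := ⟨0, tendsto_const_nhds⟩
  neg_mem' := by
    rintro f ⟨a, ha⟩
    exact ⟨-a, ha.neg⟩

variable {Ω}

/-- The value of a convergent sequence at `k`. -/
def Conv.ev (k : ℕ) : Conv Ω →+* Ω := (Pi.evalRingHom (fun _ : ℕ => Ω) k).comp (Conv Ω).subtype

theorem det_one_add {n : ℕ} (B : ℕ → Matrix (Fin n) (Fin n) Ω) (L : Matrix (Fin n) (Fin n) Ω)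
    (hB : Tendsto B atTop (𝓝 L)) (τ : ℕ → Ω) (hτ : Tendsto τ atTop (𝓝 0)) :
    ∃ c : ℕ → Ω, (∃ a, Tendsto c atTop (𝓝 a)) ∧
      ∀ k, (1 + τ k • B k).det = 1 + (B k).trace * τ k + c k * τ k ^ 2 := by
  classical
  have hBij : ∀ i j, Tendsto (fun k => B k i j) atTop (𝓝 (L i j)) := fun i j =>
    (tendsto_pi_nhds.1 (tendsto_pi_nhds.1 hB i)) j
  let M : Matrix (Fin n) (Fin n) (Conv Ω) := fun i j => ⟨fun k => B k i j, ⟨_, hBij i j⟩⟩
  let t : Conv Ω := ⟨τ, ⟨_, hτ⟩⟩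
  have h1 := Matrix.det_one_add_smul t M
  set cc : Conv Ω := (det (1 + (Polynomial.X : Polynomial (Conv Ω)) •
    M.map Polynomial.C)).divX.divX.eval t with hcc
  refine ⟨cc.1, cc.2, fun k => ?_⟩
  have h3 : (Conv.ev k).mapMatrix (1 + t • M) = 1 + τ k • B k := by
    ext i j
    simp only [RingHom.mapMatrix_apply, Matrix.map_apply, Matrix.add_apply, Matrix.smul_apply,
      smul_eq_mul, map_add, map_mul]
    have h4 : Conv.ev k ((1 : Matrix (Fin n) (Fin n) (Conv Ω)) i j) =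
        (1 : Matrix (Fin n) (Fin n) Ω) i j := by
      rw [Matrix.one_apply, Matrix.one_apply]
      split
      · exact map_one _
      · exact map_zero _
    rw [h4]
    rfl
  have h5 : Conv.ev k M.trace = (B k).trace := by
    rw [Matrix.trace, map_sum, Matrix.trace]
    rfl
  have h6 : Conv.ev k (det (1 + t • M)) = (1 + τ k • B k).det := by
    rw [RingHom.map_det, h3]
  have h7 : Conv.ev k (1 + M.trace * t + cc * t ^ 2) =
      1 + (B k).trace * τ k + cc.1 k * τ k ^ 2 := by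
    rw [← h5]
    rfl
  rw [← h6, ← h7, h1]

end conv

section field

variable {Ω : Type} [Field Ω] [TopologicalSpace Ω] [IsTopologicalRing Ω]

theorem tendsto_pow_sub {x y τ : ℕ → Ω} {l : Ω} (hx : ∀ k, x k = 1 + τ k * y k)
    (h0 : ∀ k, τ k ≠ 0) (hτ : Tendsto τ atTop (𝓝 0)) (hy : Tendsto y atTop (𝓝 l)) (M : ℕ) :
    Tendsto (fun k => (τ k)⁻¹ * (x k ^ M - 1)) atTop (𝓝 (M * l)) := by
  have h1 : Tendsto x atTop (𝓝 1) := by
    have h2 : Tendsto (fun k => 1 + τ k * y k) atTop (𝓝 (1 + 0 * l)) :=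
      tendsto_const_nhds.add (hτ.mul hy)
    rw [zero_mul, add_zero] at h2
    exact h2.congr fun k => (hx k).symm
  have h2 : ∀ k, (τ k)⁻¹ * (x k ^ M - 1) = y k * ∑ i ∈ Finset.range M, x k ^ i := by
    intro k
    have h3 := mul_geom_sum (x k) M
    have h4 : x k - 1 = τ k * y k := by rw [hx]; ring
    rw [h4] at h3
    rw [← h3, ← mul_assoc, ← mul_assoc, inv_mul_cancel₀ (h0 k), one_mul]
  have h3 : Tendsto (fun k => y k * ∑ i ∈ Finset.range M, x k ^ i) atTop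
      (𝓝 (l * ∑ i ∈ Finset.range M, (1 : Ω) ^ i)) :=
    hy.mul (tendsto_finsetSum _ fun i _ => h1.pow i)
  have h4 : l * ∑ i ∈ Finset.range M, (1 : Ω) ^ i = M * l := by
    simp [mul_comm]
  rw [h4] at h3
  exact h3.congr fun k => (h2 k).symm

theorem tendsto_det_pow {n : ℕ} {B : ℕ → Matrix (Fin n) (Fin n) Ω} {L : Matrix (Fin n) (Fin n) Ω}
    (hB : Tendsto B atTop (𝓝 L)) {τ : ℕ → Ω} (h0 : ∀ k, τ k ≠ 0) (hτ : Tendsto τ atTop (𝓝 0))
    (M : ℕ) : Tendsto (fun k => (τ k)⁻¹ * ((1 + τ k • B k).det ^ M - 1)) atTop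
      (𝓝 (M * L.trace)) := by
  obtain ⟨c, ⟨a, hc⟩, h⟩ := det_one_add B L hB τ hτ
  refine tendsto_pow_sub (y := fun k => (B k).trace + c k * τ k) (fun k => ?_) h0 hτ ?_ M
  · rw [h k]; ring
  · have h1 : Tendsto (fun k => (B k).trace + c k * τ k) atTop (𝓝 (L.trace + a * 0)) := by
      refine Tendsto.add ?_ (hc.mul hτ)
      exact (continuous_id.matrix_trace.tendsto L).comp hB
    rw [mul_zero, add_zero] at h1
    exact h1

theorem cont_lin {n m : ℕ} (P : Matrix (Fin n) (Fin n) Ω →ₗ[Ω] Matrix (Fin m) (Fin m) Ω) :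
    Continuous P := by
  have h : (P : Matrix (Fin n) (Fin n) Ω → Matrix (Fin m) (Fin m) Ω) = fun A => ∑ i, ∑ j, A i j •
      P (Matrix.single i j 1) := by
    funext A
    conv_lhs => rw [Matrix.matrix_eq_sum_single A]
    rw [map_sum]
    refine Finset.sum_congr rfl fun i _ => ?_
    rw [map_sum]
    refine Finset.sum_congr rfl fun j _ => ?_
    have h2 : Matrix.single i j (A i j) = (A i j) • Matrix.single i j (1 : Ω) := by
      rw [Matrix.smul_single, smul_eq_mul, mul_one]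
    rw [h2, map_smul]
  rw [h]
  refine continuous_finsetSum _ fun i _ => continuous_finsetSum _ fun j _ => ?_
  exact (continuous_id.matrix_elem i j).smul continuous_const

theorem rel_form {n : ℕ} {τ μ : Ω} (h0 : τ ≠ 0) {q z : Matrix (Fin n) (Fin n) Ω}
    (h : (1 + τ • z)ᵀ * q * (1 + τ • z) = μ • q) :
    (τ⁻¹ * (μ - 1)) • q = zᵀ * q + q * z + τ • (zᵀ * q * z) := by
  have h1 : (1 + τ • z)ᵀ * q * (1 + τ • z) =
      q + τ • (zᵀ * q + q * z + τ • (zᵀ * q * z)) := by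
    rw [Matrix.transpose_add, Matrix.transpose_one, Matrix.transpose_smul, add_mul, one_mul,
      mul_add, mul_one, add_mul, smul_mul_assoc, mul_smul_comm, smul_mul_assoc, mul_smul_comm,
      smul_add, smul_add]
    abel
  have h2 : (μ - 1) • q = τ • (zᵀ * q + q * z + τ • (zᵀ * q * z)) := by
    rw [sub_smul, one_smul, ← h, h1, add_sub_cancel_left]
  rw [mul_smul, h2, smul_smul, inv_mul_cancel₀ h0, one_smul]

theorem rel_P {n m : ℕ} {τ : Ω} (h0 : τ ≠ 0) {z B : Matrix (Fin n) (Fin n) Ω}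
    {y : Matrix (Fin m) (Fin m) Ω}
    (P : Matrix (Fin n) (Fin n) Ω →ₗ[Ω] Matrix (Fin m) (Fin m) Ω)
    (h : (1 + τ • y) * P (B * (1 + τ • z)) = P ((1 + τ • z) * B) * (1 + τ • y)) :
    P (B * z) + y * P B + τ • (y * P (B * z)) = P (z * B) + P B * y + τ • (P (z * B) * y) := by
  have h1 : (1 + τ • y) * P (B * (1 + τ • z)) =
      P B + τ • (P (B * z) + y * P B + τ • (y * P (B * z))) := by
    rw [mul_add, mul_one, mul_smul_comm, map_add, map_smul, add_mul, one_mul, mul_add,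
      smul_mul_assoc, smul_mul_assoc, mul_smul_comm, smul_add, smul_add]
    abel
  have h2 : P ((1 + τ • z) * B) * (1 + τ • y) =
      P B + τ • (P (z * B) + P B * y + τ • (P (z * B) * y)) := by
    rw [add_mul, one_mul, smul_mul_assoc, map_add, map_smul, mul_add, mul_one, add_mul,
      smul_mul_assoc, mul_smul_comm, mul_smul_comm, smul_add, smul_add]
    abel
  rw [h1, h2] at h
  have h3 := add_left_cancel h
  have h4 := congrArg (fun A => τ⁻¹ • A) h3
  simp only [smul_smul τ⁻¹ τ] at h4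
  rw [inv_mul_cancel₀ h0, one_smul, one_smul] at h4
  exact h4

theorem one_add {n : ℕ} {τ : Ω} (h0 : τ ≠ 0) (F : Matrix (Fin n) (Fin n) Ω) :
    F = 1 + τ • (τ⁻¹ • (F - 1)) := by
  rw [smul_smul, mul_inv_cancel₀ h0, one_smul, add_sub_cancel]

/-- The derivative of the multiplier. -/
theorem deriv_form [T2Space Ω] {n : ℕ} {τ : ℕ → Ω} (h0 : ∀ k, τ k ≠ 0)
    (hτ : Tendsto τ atTop (𝓝 0))
    {F : ℕ → Matrix (Fin n) (Fin n) Ω} {μ : ℕ → Ω}
    {q : Matrix (Fin n) (Fin n) Ω} (hq : q ≠ 0)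
    (hF : ∀ k, (F k)ᵀ * q * F k = μ k • q)
    {Z : Matrix (Fin n) (Fin n) Ω} (hZ : Tendsto (fun k => (τ k)⁻¹ • (F k - 1)) atTop (𝓝 Z)) :
    ∃ ν : Ω, Tendsto (fun k => (τ k)⁻¹ * (μ k - 1)) atTop (𝓝 ν) ∧ Zᵀ * q + q * Z = ν • q := by
  obtain ⟨z, hz⟩ : ∃ z : ℕ → Matrix (Fin n) (Fin n) Ω, z = fun k => (τ k)⁻¹ • (F k - 1) :=
    ⟨_, rfl⟩
  rw [← hz] at hZ
  have hFz : ∀ k, F k = 1 + τ k • z k := fun k => by rw [hz]; exact one_add (h0 k) _
  obtain ⟨a, b, hab⟩ : ∃ a b, q a b ≠ 0 := by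
    by_contra h
    push Not at h
    exact hq (by ext a b; exact h a b)
  have hmul : ∀ k, ((τ k)⁻¹ * (μ k - 1)) • q =
      (z k)ᵀ * q + q * z k + τ k • ((z k)ᵀ * q * z k) := by
    intro k
    refine rel_form (h0 k) ?_
    rw [← hFz k]
    exact hF k
  have hlim : Tendsto (fun k => (z k)ᵀ * q + q * z k + τ k • ((z k)ᵀ * q * z k)) atTop
      (𝓝 (Zᵀ * q + q * Z)) := by
    have hZt : Tendsto (fun k => (z k)ᵀ) atTop (𝓝 Zᵀ) :=
      ((continuous_id.matrix_transpose).tendsto Z).comp hZ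
    have e1 : Tendsto (fun k => (z k)ᵀ * q) atTop (𝓝 (Zᵀ * q)) :=
      ((continuous_id.matrix_mul continuous_const).tendsto Zᵀ).comp hZt
    have e2 : Tendsto (fun k => q * z k) atTop (𝓝 (q * Z)) :=
      ((continuous_const.matrix_mul continuous_id).tendsto Z).comp hZ
    have e3 : Tendsto (fun k => (z k)ᵀ * q * z k) atTop (𝓝 (Zᵀ * q * Z)) :=
      ((continuous_fst (X := Matrix (Fin n) (Fin n) Ω)
        (Y := Matrix (Fin n) (Fin n) Ω)).matrix_mul continuous_snd).tendsto (Zᵀ * q, Z) |>.comp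
        (e1.prodMk_nhds hZ)
    have e4 := (e1.add e2).add (hτ.smul e3)
    rw [zero_smul, add_zero] at e4
    exact e4
  have hν : Tendsto (fun k => (τ k)⁻¹ * (μ k - 1)) atTop
      (𝓝 ((Zᵀ * q + q * Z) a b * (q a b)⁻¹)) := by
    have h6 := (((continuous_id.matrix_elem a b).tendsto (Zᵀ * q + q * Z)).comp hlim).mul_const
      (q a b)⁻¹
    refine h6.congr fun k => ?_
    change ((z k)ᵀ * q + q * z k + τ k • ((z k)ᵀ * q * z k)) a b * (q a b)⁻¹ = _
    rw [← hmul k, Matrix.smul_apply, smul_eq_mul, mul_assoc, mul_inv_cancel₀ hab, mul_one]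
  refine ⟨_, hν, ?_⟩
  have h7 : Tendsto (fun k => ((τ k)⁻¹ * (μ k - 1)) • q) atTop
      (𝓝 (((Zᵀ * q + q * Z) a b * (q a b)⁻¹) • q)) := hν.smul_const q
  exact tendsto_nhds_unique hlim (h7.congr hmul)

/-- The derivative of the equivariance. -/
theorem deriv_P [T2Space Ω] {n m : ℕ} {τ : ℕ → Ω} (h0 : ∀ k, τ k ≠ 0)
    (hτ : Tendsto τ atTop (𝓝 0))
    {F : ℕ → Matrix (Fin n) (Fin n) Ω} {G : ℕ → Matrix (Fin m) (Fin m) Ω}
    (P : Matrix (Fin n) (Fin n) Ω →ₗ[Ω] Matrix (Fin m) (Fin m) Ω)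
    (hP : ∀ k B, G k * P (B * F k) = P (F k * B) * G k)
    {Z : Matrix (Fin n) (Fin n) Ω} (hZ : Tendsto (fun k => (τ k)⁻¹ • (F k - 1)) atTop (𝓝 Z))
    {Y : Matrix (Fin m) (Fin m) Ω} (hY : Tendsto (fun k => (τ k)⁻¹ • (G k - 1)) atTop (𝓝 Y))
    (B : Matrix (Fin n) (Fin n) Ω) : Y * P B - P B * Y = P (Z * B - B * Z) := by
  obtain ⟨z, hz⟩ : ∃ z : ℕ → Matrix (Fin n) (Fin n) Ω, z = fun k => (τ k)⁻¹ • (F k - 1) :=
    ⟨_, rfl⟩
  obtain ⟨y, hy⟩ : ∃ y : ℕ → Matrix (Fin m) (Fin m) Ω, y = fun k => (τ k)⁻¹ • (G k - 1) :=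
    ⟨_, rfl⟩
  rw [← hz] at hZ
  rw [← hy] at hY
  have hFz : ∀ k, F k = 1 + τ k • z k := fun k => by rw [hz]; exact one_add (h0 k) _
  have hGy : ∀ k, G k = 1 + τ k • y k := fun k => by rw [hy]; exact one_add (h0 k) _
  have hrel : ∀ k, P (B * z k) + y k * P B + τ k • (y k * P (B * z k)) =
      P (z k * B) + P B * y k + τ k • (P (z k * B) * y k) := by
    intro k
    refine rel_P (h0 k) P ?_
    rw [← hFz k, ← hGy k]
    exact hP k B
  have hPc := cont_lin P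
  have c1 : Tendsto (fun k => P (B * z k)) atTop (𝓝 (P (B * Z))) :=
    ((hPc.comp (continuous_const.matrix_mul continuous_id)).tendsto Z).comp hZ
  have c2 : Tendsto (fun k => P (z k * B)) atTop (𝓝 (P (Z * B))) :=
    ((hPc.comp (continuous_id.matrix_mul continuous_const)).tendsto Z).comp hZ
  have c3 : Tendsto (fun k => y k * P B) atTop (𝓝 (Y * P B)) :=
    ((continuous_id.matrix_mul continuous_const).tendsto Y).comp hY
  have c4 : Tendsto (fun k => P B * y k) atTop (𝓝 (P B * Y)) :=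
    ((continuous_const.matrix_mul continuous_id).tendsto Y).comp hY
  have mm : ∀ U V : Matrix (Fin m) (Fin m) Ω, Tendsto (fun p : Matrix (Fin m) (Fin m) Ω ×
      Matrix (Fin m) (Fin m) Ω => p.1 * p.2) (𝓝 (U, V)) (𝓝 (U * V)) := fun U V =>
    ((continuous_fst (X := Matrix (Fin m) (Fin m) Ω)
      (Y := Matrix (Fin m) (Fin m) Ω)).matrix_mul continuous_snd).tendsto (U, V)
  have l1 : Tendsto (fun k => P (B * z k) + y k * P B + τ k • (y k * P (B * z k))) atTop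
      (𝓝 (P (B * Z) + Y * P B)) := by
    have := (c1.add c3).add (hτ.smul ((mm _ _).comp (hY.prodMk_nhds c1)))
    rw [zero_smul, add_zero] at this
    exact this
  have l2 : Tendsto (fun k => P (z k * B) + P B * y k + τ k • (P (z k * B) * y k)) atTop
      (𝓝 (P (Z * B) + P B * Y)) := by
    have := (c2.add c4).add (hτ.smul ((mm _ _).comp (c2.prodMk_nhds hY)))
    rw [zero_smul, add_zero] at this
    exact this
  have h5 := tendsto_nhds_unique l1 (l2.congr fun k => (hrel k).symm)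
  rw [map_sub, sub_eq_sub_iff_add_eq_add, add_comm, h5]

end field

end Pool.Agent.K4H28.MT
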